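import Pool.Agent.Wien566.Exc

/-!
# The double broom
-/

namespace Pool.Agent.Wien566

open Finset

/-- position of a vertex -/
def pos {n : ℕ} (d a : ℕ) (x : Fin n) : ℕ := min (x.val + 1 - a) d

/-- a double broom on `Fin n`, with `a` vertices in position `0` -/
def brm (n d a : ℕ) : SimpleGraph (Fin n) where
  Adj x y := pos d a x + 1 = pos d a y ∨ pos d a y + 1 = pos d a x
  symm := ⟨fun x y h => h.symm⟩
  loopless := ⟨fun x h => by rcases h with h | h <;> omega⟩

theorem brm_adj {n d a : ℕ} {x y : Fin n} : (brm n d a).Adj x y ↔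
    pos d a x + 1 = pos d a y ∨ pos d a y + 1 = pos d a x := Iff.rfl

section

variable {n d a : ℕ}

/-- path vertices -/
def ww (hn : 0 < n) (a i : ℕ) : Fin n := ⟨min (a - 1 + i) (n - 1), by omega⟩

theorem pos_ww (hn : 0 < n) (ha : 1 ≤ a) (had : a + d ≤ n) {i : ℕ} (hi : i ≤ d) :
    pos d a (ww hn a i) = i := by
  unfold pos ww
  simp only
  omega

theorem walk_up (hn : 0 < n) (ha : 1 ≤ a) (had : a + d ≤ n) (k : ℕ) : ∀ x y : Fin n,
    pos d a x + (k + 1) = pos d a y → ∃ p : (brm n d a).Walk x y, p.length = k + 1 := by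
  induction k with
  | zero =>
    intro x y hxy
    have hadj : (brm n d a).Adj x y := Or.inl (by omega)
    exact ⟨hadj.toWalk, by simp⟩
  | succ k ih =>
    intro x y hxy
    have hy : pos d a y ≤ d := by unfold pos; omega
    have h1 : pos d a (ww hn a (pos d a x + 1)) = pos d a x + 1 :=
      pos_ww hn ha had (by omega)
    obtain ⟨p, hp⟩ := ih (ww hn a (pos d a x + 1)) y (by rw [h1]; omega)
    have hadj : (brm n d a).Adj x (ww hn a (pos d a x + 1)) := Or.inl (by rw [h1])
    exact ⟨SimpleGraph.Walk.cons hadj p, by simp [hp]⟩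

theorem walk_all (hn : 0 < n) (hd : 3 ≤ d) (ha : 1 ≤ a) (had : a + d ≤ n) (x y : Fin n) :
    ∃ p : (brm n d a).Walk x y, p.length ≤ d := by
  have hx : pos d a x ≤ d := by unfold pos; omega
  have hy : pos d a y ≤ d := by unfold pos; omega
  rcases lt_trichotomy (pos d a x) (pos d a y) with h | h | h
  · obtain ⟨p, hp⟩ := walk_up hn ha had (pos d a y - pos d a x - 1) x y (by omega)
    exact ⟨p, by omega⟩
  · rcases Nat.lt_or_ge (pos d a x) d with h1 | h1
    · have h2 : pos d a (ww hn a (pos d a x + 1)) = pos d a x + 1 := pos_ww hn ha had (by omega)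
      obtain ⟨p, hp⟩ := walk_up hn ha had 0 x (ww hn a (pos d a x + 1)) (by rw [h2])
      obtain ⟨q, hq⟩ := walk_up hn ha had 0 y (ww hn a (pos d a x + 1)) (by rw [h2, h])
      refine ⟨p.append q.reverse, ?_⟩
      rw [SimpleGraph.Walk.length_append, SimpleGraph.Walk.length_reverse]
      omega
    · have h2 : pos d a (ww hn a (pos d a x - 1)) = pos d a x - 1 := pos_ww hn ha had (by omega)
      obtain ⟨p, hp⟩ := walk_up hn ha had 0 (ww hn a (pos d a x - 1)) x (by rw [h2]; omega)
      obtain ⟨q, hq⟩ := walk_up hn ha had 0 (ww hn a (pos d a x - 1)) y (by rw [h2]; omega)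
      refine ⟨p.reverse.append q, ?_⟩
      rw [SimpleGraph.Walk.length_append, SimpleGraph.Walk.length_reverse]
      omega
  · obtain ⟨p, hp⟩ := walk_up hn ha had (pos d a x - pos d a y - 1) y x (by omega)
    exact ⟨p.reverse, by rw [SimpleGraph.Walk.length_reverse]; omega⟩

theorem brm_connected (hn : 0 < n) (hd : 3 ≤ d) (ha : 1 ≤ a) (had : a + d ≤ n) :
    (brm n d a).Connected := by
  have : Nonempty (Fin n) := ⟨⟨0, hn⟩⟩
  refine ⟨fun x y => ?_⟩
  obtain ⟨p, _⟩ := walk_all hn hd ha had x y
  exact ⟨p⟩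

theorem walk_lip {x y : Fin n} (p : (brm n d a).Walk x y) :
    ad (pos d a x) (pos d a y) ≤ p.length := by
  induction p with
  | nil => simp [ad]
  | cons h q ih =>
    rw [brm_adj] at h
    rw [SimpleGraph.Walk.length_cons]
    unfold ad at *
    omega

theorem brm_dist_ge (hc : (brm n d a).Connected) (x y : Fin n) :
    ad (pos d a x) (pos d a y) ≤ (brm n d a).dist x y := by
  obtain ⟨p, hp⟩ := hc.exists_walk_length_eq_dist x y
  rw [← hp]; exact walk_lip p

theorem brm_dist_ge2 (hc : (brm n d a).Connected) {x y : Fin n} (hxy : x ≠ y)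
    (h : pos d a x = pos d a y) : 2 ≤ (brm n d a).dist x y := by
  have h0 : (brm n d a).dist x y ≠ 0 := fun e => hxy (hc.dist_eq_zero_iff.1 e)
  have h1 : (brm n d a).dist x y ≠ 1 := by
    intro e
    rw [SimpleGraph.dist_eq_one_iff_adj, brm_adj] at e
    omega
  omega

theorem brm_diam (hn : 0 < n) (hd : 3 ≤ d) (ha : 1 ≤ a) (had : a + d ≤ n) :
    (brm n d a).diam = d := by
  have : Nonempty (Fin n) := ⟨⟨0, hn⟩⟩
  have hc := brm_connected hn hd ha had
  have htop : (brm n d a).ediam ≠ ⊤ := SimpleGraph.connected_iff_ediam_ne_top.1 hc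
  apply le_antisymm
  · obtain ⟨u, w, huw⟩ := SimpleGraph.exists_dist_eq_diam (G := brm n d a)
    rw [← huw]
    obtain ⟨p, hp⟩ := walk_all hn hd ha had u w
    exact (SimpleGraph.dist_le p).trans hp
  · have h1 := SimpleGraph.dist_le_diam htop (u := ww hn a 0) (v := ww hn a d)
    have h2 := brm_dist_ge hc (ww hn a 0) (ww hn a d)
    rw [pos_ww hn ha had (by omega), pos_ww hn ha had (le_refl _)] at h2
    unfold ad at h2
    omega

/-- lower bound for the distance sum of the double broom -/
theorem brm_sum (hn : 0 < n) (hd : 3 ≤ d) (ha : 1 ≤ a) (had : a + d ≤ n) :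
    2 * (∑ i ∈ range d, ((a + i) * (n - (a + i)) : ℤ)) + 2 * (a * (a - 1)) +
      2 * ((n - a - d + 1) * (n - a - d)) ≤ ∑ x, ∑ y, ((brm n d a).dist x y : ℤ) := by
  have hc := brm_connected hn hd ha had
  -- pointwise bound
  have hpt : ∀ x y : Fin n, (∑ i ∈ range d, ((if pos d a x ≤ i then (1 : ℤ) else 0) *
        (if pos d a y ≤ i then 0 else 1) +
        (if pos d a y ≤ i then (1 : ℤ) else 0) * (if pos d a x ≤ i then 0 else 1))) +
      2 * ((if pos d a x = 0 ∧ pos d a y = 0 ∧ x ≠ y then 1 else 0) +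
        (if pos d a x = d ∧ pos d a y = d ∧ x ≠ y then 1 else 0))
      ≤ ((brm n d a).dist x y : ℤ) := by
    intro x y
    have hx : pos d a x ≤ d := by unfold pos; omega
    have hy : pos d a y ≤ d := by unfold pos; omega
    have hs : ∀ p q : ℕ, p ≤ q → q ≤ d → (∑ i ∈ range d, (if p ≤ i then (1 : ℤ) else 0) *
        (if q ≤ i then 0 else 1)) = ((q - p : ℕ) : ℤ) := by
      intro p q hpq hq
      have : ∀ i, (if p ≤ i then (1 : ℤ) else 0) * (if q ≤ i then 0 else 1) =
          if p ≤ i ∧ i < q then 1 else 0 := by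
        intro i
        by_cases h1 : p ≤ i <;> by_cases h2 : q ≤ i <;> simp [h1, h2]
      simp only [this]
      rw [← sum_filter, sum_const, nsmul_eq_mul, mul_one]
      congr 1
      have : (range d).filter (fun i => p ≤ i ∧ i < q) = Finset.Ico p q := by
        ext i; simp only [mem_filter, mem_range, mem_Ico]; omega
      rw [this, Nat.card_Ico]
    have hs0 : ∀ p q : ℕ, p ≤ q → (∑ i ∈ range d, (if q ≤ i then (1 : ℤ) else 0) *
        (if p ≤ i then 0 else 1)) = 0 := by
      intro p q hpq
      refine sum_eq_zero fun i _ => ?_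
      by_cases h1 : q ≤ i
      · rw [if_pos (hpq.trans h1)]; simp
      · rw [if_neg h1]; simp
    have hge := brm_dist_ge hc x y
    rw [sum_add_distrib]
    by_cases hxy : pos d a x = pos d a y
    · rw [hxy, hs _ _ (le_refl _) hy]
      by_cases hne : x = y
      · subst hne
        simp
      · have h2 := brm_dist_ge2 hc hne hxy
        have h3 : ((if pos d a y = 0 ∧ pos d a y = 0 ∧ x ≠ y then (1 : ℤ) else 0) +
            (if pos d a y = d ∧ pos d a y = d ∧ x ≠ y then 1 else 0)) ≤ 1 := by
          split_ifs <;> first | omega | simp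
        have h4 : ((pos d a y - pos d a y : ℕ) : ℤ) = 0 := by simp
        rw [h4]
        have h5 : (2 : ℤ) ≤ ((brm n d a).dist x y : ℤ) := by exact_mod_cast h2
        linarith
    · have h3 : ((if pos d a x = 0 ∧ pos d a y = 0 ∧ x ≠ y then (1 : ℤ) else 0) +
            (if pos d a x = d ∧ pos d a y = d ∧ x ≠ y then 1 else 0)) = 0 := by
        rw [if_neg (by omega), if_neg (by omega)]; rfl
      rw [h3]
      unfold ad at hge
      rcases le_total (pos d a x) (pos d a y) with h | h
      · rw [hs _ _ h hy, hs0 _ _ h]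
        omega
      · rw [hs _ _ h hx, hs0 _ _ h]
        omega
  refine le_trans ?_ (sum_le_sum fun x _ => sum_le_sum fun y _ => hpt x y)
  -- evaluate the sum
  have hcnt : ∀ i < d, (∑ x : Fin n, if pos d a x ≤ i then (1 : ℤ) else 0) = a + i := by
    intro i hi
    rw [← sum_filter, sum_const, nsmul_eq_mul, mul_one]
    have : (univ.filter (fun x : Fin n => pos d a x ≤ i)) =
        (univ.filter (fun x : Fin n => x.val < a + i)) := by
      ext x; simp only [mem_filter, mem_univ, true_and]; unfold pos; omega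
    rw [this, Fin.card_filter_val_lt]
    have : min n (a + i) = a + i := by omega
    rw [this]; push_cast; ring
  have hcnt' : ∀ i < d, (∑ x : Fin n, if pos d a x ≤ i then (0 : ℤ) else 1) = n - (a + i) := by
    intro i hi
    have : ∀ x : Fin n, (if pos d a x ≤ i then (0 : ℤ) else 1) =
        1 - (if pos d a x ≤ i then (1 : ℤ) else 0) := by
      intro x; split_ifs <;> simp
    simp only [this, sum_sub_distrib, hcnt i hi]
    simp
  have e1 : ∑ x : Fin n, ∑ y : Fin n, (∑ i ∈ range d, ((if pos d a x ≤ i then (1 : ℤ) else 0) *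
        (if pos d a y ≤ i then 0 else 1) +
        (if pos d a y ≤ i then (1 : ℤ) else 0) * (if pos d a x ≤ i then 0 else 1)))
      = 2 * (∑ i ∈ range d, ((a + i) * (n - (a + i)) : ℤ)) := by
    rw [mul_sum]
    symm
    have hi' : ∀ i ∈ range d, (2 * ((a + i) * (n - (a + i)) : ℤ)) =
        ∑ x : Fin n, ∑ y : Fin n, ((if pos d a x ≤ i then (1 : ℤ) else 0) *
        (if pos d a y ≤ i then 0 else 1) +
        (if pos d a y ≤ i then (1 : ℤ) else 0) * (if pos d a x ≤ i then 0 else 1)) := by
      intro i hi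
      rw [mem_range] at hi
      simp only [sum_add_distrib]
      rw [← sum_mul_sum, hcnt i hi, hcnt' i hi]
      have : ∑ x : Fin n, ∑ y : Fin n, (if pos d a y ≤ i then (1 : ℤ) else 0) *
          (if pos d a x ≤ i then 0 else 1) =
          (∑ y : Fin n, if pos d a y ≤ i then (1 : ℤ) else 0) *
            (∑ x : Fin n, if pos d a x ≤ i then (0 : ℤ) else 1) := by
        rw [sum_comm, ← sum_mul_sum]
      rw [this, hcnt i hi, hcnt' i hi]
      ring
    rw [sum_congr rfl hi', sum_comm]
    refine sum_congr rfl fun x _ => ?_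
    rw [sum_comm]
  have hoff : ∀ (S : Finset (Fin n)), (∑ x : Fin n, ∑ y : Fin n,
      (if x ∈ S ∧ y ∈ S ∧ x ≠ y then (1 : ℤ) else 0)) = S.card * (S.card - 1) := by
    intro S
    have h1 : ∀ x y : Fin n, (if x ∈ S ∧ y ∈ S ∧ x ≠ y then (1 : ℤ) else 0) =
        (if x ∈ S then 1 else 0) * (if y ∈ S then 1 else 0) -
          (if y = x then (if x ∈ S then 1 else 0) else 0) := by
      intro x y
      by_cases h1 : x ∈ S <;> by_cases h2 : y ∈ S <;> by_cases h3 : y = x <;>
        simp_all
      · exact fun e => h3 e.symm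
    simp only [h1, sum_sub_distrib]
    rw [← sum_mul_sum]
    simp
    ring
  have e2 : ∑ x : Fin n, ∑ y : Fin n, (if pos d a x = 0 ∧ pos d a y = 0 ∧ x ≠ y then (1 : ℤ) else 0)
      = a * (a - 1) := by
    have := hoff (univ.filter (fun x : Fin n => x.val < a))
    rw [Fin.card_filter_val_lt, show min n a = a by omega] at this
    rw [← this]
    refine sum_congr rfl fun x _ => sum_congr rfl fun y _ => ?_
    simp only [mem_filter, mem_univ, true_and]
    congr 1
    have h1 : ∀ z : Fin n, (pos d a z = 0) = (z.val < a) := by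
      intro z; unfold pos; apply propext; omega
    rw [h1, h1]
  have e3 : ∑ x : Fin n, ∑ y : Fin n, (if pos d a x = d ∧ pos d a y = d ∧ x ≠ y then (1 : ℤ) else 0)
      = (n - a - d + 1) * (n - a - d) := by
    have := hoff (univ.filter (fun x : Fin n => ¬ x.val < a + d - 1))
    have hcard : (univ.filter (fun x : Fin n => ¬ x.val < a + d - 1)).card = n - (a + d - 1) := by
      have h1 := card_filter_add_card_filter_not (s := (univ : Finset (Fin n)))
        (fun x : Fin n => x.val < a + d - 1)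
      rw [Fin.card_filter_val_lt, card_univ, Fintype.card_fin] at h1
      omega
    rw [hcard, Nat.cast_sub (by omega), Nat.cast_sub (by omega)] at this
    push_cast at this
    have h2 : ((n : ℤ) - a - d + 1) * (n - a - d) = (n - (a + d - 1)) * (n - (a + d - 1) - 1) := by
      ring
    rw [h2, ← this]
    refine sum_congr rfl fun x _ => sum_congr rfl fun y _ => ?_
    simp only [mem_filter, mem_univ, true_and]
    congr 1
    have h1 : ∀ z : Fin n, (pos d a z = d) = (¬ z.val < a + d - 1) := by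
      intro z; unfold pos; apply propext; omega
    rw [h1, h1]
  simp only [sum_add_distrib, ← mul_sum] at e1 ⊢
  rw [e2, e3]
  linarith

theorem sum_T6 (n a : ℤ) (d : ℕ) : 6 * ∑ i ∈ range d, ((a + i) * (n - (a + i)) : ℤ) =
    T6 n (a - 1 + d) - T6 n (a - 1) := by
  induction d with
  | zero => simp
  | succ d ih =>
    rw [sum_range_succ, mul_add, ih]
    push_cast
    have h := T6_succ n (a - 1 + d)
    have e : a - 1 + (d : ℤ) + 1 = a + d := by ring
    rw [e] at h
    have e2 : a - 1 + ((d : ℤ) + 1) = a + d := by ring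
    rw [e2, h]
    ring

/-- the distance sum of the double broom reaches the broom value -/
theorem brm_value (hn : 0 < n) (hd : 3 ≤ d) {α β : ℕ} (hnab : n = d + 1 + (α + β)) (c : ℤ) :
    B6 n c α + B6 n (d - c) β ≤ 3 * ∑ x, ∑ y, ((brm n d (α + 1)).dist x y : ℤ) := by
  have h := brm_sum hn hd (a := α + 1) (by omega) (by omega)
  have h2 := sum_T6 n ((α + 1 : ℕ) : ℤ) d
  have hn' : (n : ℤ) = d + 1 + (α + β) := by exact_mod_cast hnab
  have h3 := broom_value (d : ℤ) c α β
  rw [← hn'] at h3
  rw [h3]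
  have h4 : T6 (n : ℤ) (((α + 1 : ℕ) : ℤ) - 1 + d) - T6 n (((α + 1 : ℕ) : ℤ) - 1) +
      6 * ((((α + 1 : ℕ) : ℤ)) * ((((α + 1 : ℕ) : ℤ)) - 1)) +
      6 * ((n - ((α + 1 : ℕ) : ℤ) - d + 1) * (n - ((α + 1 : ℕ) : ℤ) - d)) =
      d * (d + 1) * (d + 2) + 3 * (α + β) * (d * (d + 1) + 4) + 6 * (α * β) * d
        + 6 * α * (α - 1) + 6 * β * (β - 1) := by
    rw [hn']; unfold T6; push_cast; ring
  rw [← h4, ← h2]
  linarith

end

end Pool.Agent.Wien566
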