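import Mathlib

/-!
# Rooted trees given by a parent map, and distance sums
-/

namespace Pool.Agent.Wien566

open Finset

/-- rooted tree data: a root, a parent map and levels -/
structure RT {V : Type*} (r : V) (π : V → V) (ℓ : V → ℕ) : Prop where
  lr : ℓ r = 0
  lp : ∀ x, x ≠ r → ℓ x = ℓ (π x) + 1

section

variable {V : Type*} [DecidableEq V]

/-- ancestors of `x` (including `x`, excluding the root) -/
def anc (π : V → V) (ℓ : V → ℕ) (x : V) : Finset V :=
  (Finset.range (ℓ x)).image (fun k => π^[k] x)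

variable {r : V} {π : V → V} {ℓ : V → ℕ}

theorem RT.eq_root (h : RT r π ℓ) {x : V} (hx : ℓ x = 0) : x = r := by
  by_contra hne
  have := h.lp x hne
  omega

theorem anc_root (h : RT r π ℓ) : anc π ℓ r = ∅ := by
  simp [anc, h.lr]

theorem anc_succ (h : RT r π ℓ) {x : V} (hx : x ≠ r) :
    anc π ℓ x = insert x (anc π ℓ (π x)) := by
  ext z
  simp only [anc, mem_image, mem_range, mem_insert, h.lp x hx]
  constructor
  · rintro ⟨k, hk, rfl⟩
    rcases k with _ | k
    · left; rfl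
    · right; exact ⟨k, by omega, rfl⟩
  · rintro (rfl | ⟨k, hk, rfl⟩)
    · exact ⟨0, by omega, rfl⟩
    · exact ⟨k + 1, by omega, rfl⟩

theorem RT.rec_on (h : RT r π ℓ) {P : V → Prop} (h0 : P r) (h1 : ∀ x, x ≠ r → P (π x) → P x)
    (x : V) : P x := by
  induction hx : ℓ x using Nat.strong_induction_on generalizing x with
  | _ k ih =>
    by_cases hr : x = r
    · rw [hr]; exact h0
    · apply h1 x hr
      have := h.lp x hr
      exact ih (ℓ (π x)) (by omega) (π x) rfl

theorem anc_lvl (h : RT r π ℓ) {z : V} (x : V) : z ∈ anc π ℓ x → z ≠ r ∧ ℓ z ≤ ℓ x := by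
  refine h.rec_on (P := fun x => z ∈ anc π ℓ x → z ≠ r ∧ ℓ z ≤ ℓ x) ?_ ?_ x
  · rw [anc_root h]; simp
  · intro x hx ih hz
    rw [anc_succ h hx, mem_insert] at hz
    rcases hz with rfl | hz
    · exact ⟨hx, le_refl _⟩
    · have h1 := ih hz
      have h2 := h.lp x hx
      exact ⟨h1.1, by omega⟩

theorem self_mem_anc (h : RT r π ℓ) {x : V} (hx : x ≠ r) : x ∈ anc π ℓ x := by
  rw [anc_succ h hx]; exact mem_insert_self _ _

theorem not_mem_anc (h : RT r π ℓ) {x y : V} (hl : ℓ y ≤ ℓ x) (hne : x ≠ y) : x ∉ anc π ℓ y := by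
  intro hx
  have hy : y ≠ r := by
    rintro rfl
    rw [anc_root h] at hx; simp at hx
  rw [anc_succ h hy, mem_insert] at hx
  rcases hx with hx | hx
  · exact hne hx
  · have h1 := (anc_lvl h _ hx).2
    have h2 := h.lp y hy
    omega

theorem anc_unique (h : RT r π ℓ) {y z : V} (hyz : ℓ y = ℓ z) (x : V) :
    y ∈ anc π ℓ x → z ∈ anc π ℓ x → y = z := by
  refine h.rec_on (P := fun x => y ∈ anc π ℓ x → z ∈ anc π ℓ x → y = z) ?_ ?_ x
  · rw [anc_root h]; simp
  · intro x hx ih hy hz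
    have hl := h.lp x hx
    rw [anc_succ h hx, mem_insert] at hy hz
    rcases hy with rfl | hy
    · rcases hz with rfl | hz
      · rfl
      · have := (anc_lvl h _ hz).2; omega
    · rcases hz with rfl | hz
      · have := (anc_lvl h _ hy).2; omega
      · exact ih hy hz

theorem anc_child (h : RT r π ℓ) {z : V} (x : V) :
    x ≠ r → (z = r ∨ (z ∈ anc π ℓ x ∧ x ≠ z)) → ∃ y, y ≠ r ∧ π y = z ∧ y ∈ anc π ℓ x := by
  refine h.rec_on (P := fun x => x ≠ r → (z = r ∨ (z ∈ anc π ℓ x ∧ x ≠ z)) →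
    ∃ y, y ≠ r ∧ π y = z ∧ y ∈ anc π ℓ x) ?_ ?_ x
  · intro h; exact absurd rfl h
  · intro x hx ih _ hz
    by_cases hp : π x = z
    · exact ⟨x, hx, hp, self_mem_anc h hx⟩
    · have hpr : π x ≠ r := by
        rcases hz with rfl | ⟨hz, hxz⟩
        · exact hp
        · intro hpr
          rw [anc_succ h hx, mem_insert, hpr, anc_root h] at hz
          rcases hz with hz | hz
          · exact hxz hz.symm
          · simp at hz
      have h2 : z = r ∨ (z ∈ anc π ℓ (π x) ∧ π x ≠ z) := by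
        rcases hz with rfl | ⟨hz, hxz⟩
        · left; rfl
        · right
          rw [anc_succ h hx, mem_insert] at hz
          rcases hz with hz | hz
          · exact absurd hz.symm hxz
          · exact ⟨hz, hp⟩
      obtain ⟨y, h3, h4, h5⟩ := ih hpr h2
      refine ⟨y, h3, h4, ?_⟩
      rw [anc_succ h hx]; exact mem_insert_of_mem h5

theorem anc_parent (h : RT r π ℓ) {y : V} (hy : π y ≠ r) (x : V) :
    y ∈ anc π ℓ x → π y ∈ anc π ℓ x := by
  refine h.rec_on (P := fun x => y ∈ anc π ℓ x → π y ∈ anc π ℓ x) ?_ ?_ x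
  · rw [anc_root h]; simp
  · intro x hx ih hyx
    rw [anc_succ h hx, mem_insert] at hyx ⊢
    rcases hyx with rfl | hyx
    · right; exact self_mem_anc h hy
    · right; exact ih hyx

end

section

variable {V : Type*} [Fintype V] [DecidableEq V]

/-- the subtree of `z` -/
def desc (π : V → V) (ℓ : V → ℕ) (z : V) : Finset V := univ.filter (fun x => z ∈ anc π ℓ x)

/-- the children of `z` -/
def chd (r : V) (π : V → V) (z : V) : Finset V := univ.filter (fun y => y ≠ r ∧ π y = z)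

variable {r : V} {π : V → V} {ℓ : V → ℕ}

theorem mem_desc {x z : V} : x ∈ desc π ℓ z ↔ z ∈ anc π ℓ x := by simp [desc]

theorem mem_chd {y z : V} : y ∈ chd r π z ↔ y ≠ r ∧ π y = z := by simp [chd]

theorem desc_eq (h : RT r π ℓ) {z : V} (hz : z ≠ r) :
    desc π ℓ z = insert z ((chd r π z).biUnion (desc π ℓ)) := by
  ext x
  rw [mem_insert, mem_biUnion, mem_desc]
  constructor
  · intro hx
    by_cases hxz : x = z
    · left; exact hxz
    · right
      have hxr : x ≠ r := by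
        rintro rfl; rw [anc_root h] at hx; simp at hx
      obtain ⟨y, h1, h2, h3⟩ := anc_child h x hxr (Or.inr ⟨hx, hxz⟩)
      exact ⟨y, mem_chd.2 ⟨h1, h2⟩, mem_desc.2 h3⟩
  · rintro (rfl | ⟨y, hy, hx⟩)
    · exact self_mem_anc h hz
    · rw [mem_chd] at hy
      rw [mem_desc] at hx
      have := anc_parent h (y := y) (by rw [hy.2]; exact hz) x hx
      rwa [hy.2] at this

theorem univ_eq (h : RT r π ℓ) :
    (univ : Finset V).erase r = (chd r π r).biUnion (desc π ℓ) := by
  ext x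
  rw [mem_erase, mem_biUnion]
  constructor
  · rintro ⟨hx, _⟩
    obtain ⟨y, h1, h2, h3⟩ := anc_child h (z := r) x hx (Or.inl rfl)
    exact ⟨y, mem_chd.2 ⟨h1, h2⟩, mem_desc.2 h3⟩
  · rintro ⟨y, hy, hx⟩
    rw [mem_desc] at hx
    refine ⟨?_, mem_univ _⟩
    rintro rfl
    rw [anc_root h] at hx; simp at hx

theorem desc_disj (h : RT r π ℓ) (z : V) :
    Set.PairwiseDisjoint (↑(chd r π z) : Set V) (desc π ℓ) := by
  intro y hy y' hy' hne
  rw [mem_coe, mem_chd] at hy hy'
  change Disjoint _ _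
  rw [Finset.disjoint_left]
  intro x hx hx'
  rw [mem_desc] at hx hx'
  apply hne
  refine anc_unique h ?_ x hx hx'
  rw [h.lp y hy.1, h.lp y' hy'.1, hy.2, hy'.2]

theorem not_mem_biUnion (h : RT r π ℓ) (z : V) : z ∉ (chd r π z).biUnion (desc π ℓ) := by
  rw [mem_biUnion]
  rintro ⟨y, hy, hz⟩
  rw [mem_chd] at hy
  rw [mem_desc] at hz
  have h1 := (anc_lvl h _ hz).2
  have h2 := h.lp y hy.1
  rw [hy.2] at h2
  omega

theorem sum_desc (h : RT r π ℓ) {z : V} (hz : z ≠ r) (f : V → ℤ) :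
    ∑ x ∈ desc π ℓ z, f x = f z + ∑ y ∈ chd r π z, ∑ x ∈ desc π ℓ y, f x := by
  rw [desc_eq h hz, sum_insert (not_mem_biUnion h z), sum_biUnion (desc_disj h z)]

theorem sum_root (h : RT r π ℓ) (f : V → ℤ) :
    ∑ x ∈ univ.erase r, f x = ∑ y ∈ chd r π r, ∑ x ∈ desc π ℓ y, f x := by
  rw [univ_eq h, sum_biUnion (desc_disj h r)]

/-- size of the subtree -/
def sz (π : V → V) (ℓ : V → ℕ) (z : V) : ℤ := (desc π ℓ z).card

theorem sz_eq (h : RT r π ℓ) {z : V} (hz : z ≠ r) :
    sz π ℓ z = 1 + ∑ y ∈ chd r π z, sz π ℓ y := by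
  have := sum_desc h hz (fun _ => 1)
  simpa [sz] using this

theorem sz_root (h : RT r π ℓ) :
    (Fintype.card V : ℤ) - 1 = ∑ y ∈ chd r π r, sz π ℓ y := by
  have := sum_root h (fun _ => 1)
  simp only [sum_const, nsmul_eq_mul, mul_one, card_erase_of_mem (mem_univ r), card_univ] at this
  rw [Nat.cast_sub (Fintype.card_pos_iff.2 ⟨r⟩)] at this
  simpa [sz] using this

/-- the sum over a subtree -/
def Ph (π : V → V) (ℓ : V → ℕ) (z : V) : ℤ :=
  ∑ x ∈ desc π ℓ z, 6 * (sz π ℓ x * (Fintype.card V - sz π ℓ x))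

theorem Ph_eq (h : RT r π ℓ) {z : V} (hz : z ≠ r) :
    Ph π ℓ z = 6 * (sz π ℓ z * (Fintype.card V - sz π ℓ z)) + ∑ y ∈ chd r π z, Ph π ℓ y :=
  sum_desc h hz _

theorem sz_at_root (h : RT r π ℓ) : sz π ℓ r = 0 := by
  unfold sz
  have : desc π ℓ r = ∅ := by
    ext x
    rw [mem_desc]
    simp only [notMem_empty, iff_false]
    intro hx
    exact (anc_lvl h x hx).1 rfl
  rw [this]; simp

theorem dist_le_anc (h : RT r π ℓ) {G : SimpleGraph V} (hc : G.Connected)
    (hadj : ∀ x, x ≠ r → G.Adj x (π x)) (x y : V) :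
    G.dist x y ≤ (anc π ℓ x \ anc π ℓ y).card + (anc π ℓ y \ anc π ℓ x).card := by
  have step : ∀ x y : V, ℓ y ≤ ℓ x → x ≠ y →
      G.dist (π x) y ≤ (anc π ℓ (π x) \ anc π ℓ y).card + (anc π ℓ y \ anc π ℓ (π x)).card →
      G.dist x y ≤ (anc π ℓ x \ anc π ℓ y).card + (anc π ℓ y \ anc π ℓ x).card := by
    intro x y hl hne ih
    have hx : x ≠ r := by
      rintro rfl
      rw [h.lr] at hl
      exact hne (h.eq_root (by omega)).symm
    have h1 : x ∉ anc π ℓ y := not_mem_anc h hl hne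
    have hlp := h.lp x hx
    have h2 : x ∉ anc π ℓ (π x) := by
      intro h3
      have := (anc_lvl h _ h3).2
      omega
    have e1 : anc π ℓ x \ anc π ℓ y = insert x (anc π ℓ (π x) \ anc π ℓ y) := by
      rw [anc_succ h hx, insert_sdiff_of_notMem _ h1]
    have e2 : anc π ℓ y \ anc π ℓ x = anc π ℓ y \ anc π ℓ (π x) := by
      rw [anc_succ h hx]
      ext z
      simp only [mem_sdiff, mem_insert, not_or]
      constructor
      · rintro ⟨a, b, c⟩; exact ⟨a, c⟩
      · rintro ⟨a, c⟩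
        refine ⟨a, ?_, c⟩
        rintro rfl; exact h1 a
    have h4 : x ∉ anc π ℓ (π x) \ anc π ℓ y := fun h5 => h2 (mem_sdiff.1 h5).1
    rw [e1, e2, card_insert_of_notMem h4]
    have h6 : G.dist x y ≤ G.dist x (π x) + G.dist (π x) y := hc.dist_triangle
    have h7 : G.dist x (π x) = 1 := SimpleGraph.dist_eq_one_iff_adj.2 (hadj x hx)
    omega
  induction hk : ℓ x + ℓ y using Nat.strong_induction_on generalizing x y with
  | _ k ih =>
    by_cases hxy : x = y
    · subst hxy; simp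
    · rcases le_total (ℓ y) (ℓ x) with hl | hl
      · apply step x y hl hxy
        have hx : x ≠ r := by
          rintro rfl
          rw [h.lr] at hl
          exact hxy (h.eq_root (by omega)).symm
        have hlp := h.lp x hx
        exact ih (ℓ (π x) + ℓ y) (by omega) (π x) y rfl
      · have h1 := step y x hl (Ne.symm hxy) (by
          have hy : y ≠ r := by
            rintro rfl
            rw [h.lr] at hl
            exact hxy (h.eq_root (by omega))
          have hlp := h.lp y hy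
          exact ih (ℓ (π y) + ℓ x) (by omega) (π y) x rfl)
        rw [SimpleGraph.dist_comm]
        omega

theorem sum_card_sdiff (A : V → Finset V) :
    (∑ x, ∑ y, ((A x \ A y).card : ℤ)) =
      ∑ z, ((univ.filter (fun x => z ∈ A x)).card : ℤ) *
        ((Fintype.card V : ℤ) - (univ.filter (fun x => z ∈ A x)).card) := by
  have h1 : ∀ x y, ((A x \ A y).card : ℤ) =
      ∑ z, (if z ∈ A x then (1 : ℤ) else 0) * (if z ∈ A y then 0 else 1) := by
    intro x y
    have : (A x \ A y) = univ.filter (fun z => z ∈ A x ∧ z ∉ A y) := by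
      ext z; simp
    rw [this, card_filter]
    push_cast
    refine sum_congr rfl fun z _ => ?_
    by_cases h1 : z ∈ A x <;> by_cases h2 : z ∈ A y <;> simp [h1, h2]
  simp only [h1]
  have h2 : ∀ z, (∑ x, ∑ y, (if z ∈ A x then (1 : ℤ) else 0) * (if z ∈ A y then 0 else 1)) =
      ((univ.filter (fun x => z ∈ A x)).card : ℤ) *
        ((Fintype.card V : ℤ) - (univ.filter (fun x => z ∈ A x)).card) := by
    intro z
    rw [← sum_mul_sum]
    congr 1
    · simp
    · have : ∀ y, (if z ∈ A y then (0 : ℤ) else 1) = 1 - (if z ∈ A y then (1 : ℤ) else 0) := by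
        intro y; split_ifs <;> simp
      simp only [this, sum_sub_distrib]
      simp
  calc (∑ x, ∑ y, ∑ z, (if z ∈ A x then (1 : ℤ) else 0) * (if z ∈ A y then 0 else 1))
      = ∑ x, ∑ z, ∑ y, (if z ∈ A x then (1 : ℤ) else 0) * (if z ∈ A y then 0 else 1) :=
        sum_congr rfl fun x _ => sum_comm
    _ = ∑ z, ∑ x, ∑ y, (if z ∈ A x then (1 : ℤ) else 0) * (if z ∈ A y then 0 else 1) := sum_comm
    _ = _ := sum_congr rfl fun z _ => h2 z

/-- the distance sum is at most the tree value -/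
theorem sum_dist_le (h : RT r π ℓ) {G : SimpleGraph V} (hc : G.Connected)
    (hadj : ∀ x, x ≠ r → G.Adj x (π x)) :
    3 * (∑ x, ∑ y, (G.dist x y : ℤ)) ≤ ∑ y ∈ chd r π r, Ph π ℓ y := by
  have h1 : (∑ x, ∑ y, (G.dist x y : ℤ)) ≤
      ∑ x, ∑ y, (((anc π ℓ x \ anc π ℓ y).card : ℤ) + ((anc π ℓ y \ anc π ℓ x).card : ℤ)) := by
    refine sum_le_sum fun x _ => sum_le_sum fun y _ => ?_
    exact_mod_cast dist_le_anc h hc hadj x y
  have h2 : ∑ x, ∑ y, (((anc π ℓ x \ anc π ℓ y).card : ℤ) + ((anc π ℓ y \ anc π ℓ x).card : ℤ))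
      = 2 * ∑ x, ∑ y, ((anc π ℓ x \ anc π ℓ y).card : ℤ) := by
    simp only [sum_add_distrib]
    rw [sum_comm (f := fun x y => ((anc π ℓ y \ anc π ℓ x).card : ℤ))]
    ring
  rw [h2, sum_card_sdiff] at h1
  have h3 : ∑ z, ((univ.filter (fun x => z ∈ anc π ℓ x)).card : ℤ) *
        ((Fintype.card V : ℤ) - (univ.filter (fun x => z ∈ anc π ℓ x)).card)
      = ∑ z ∈ univ.erase r, sz π ℓ z * ((Fintype.card V : ℤ) - sz π ℓ z) := by
    rw [← add_sum_erase univ _ (mem_univ r)]
    have := sz_at_root h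
    unfold sz desc at this
    rw [this]
    simp [sz, desc]
  rw [h3] at h1
  have h4 := sum_root h (fun z => 6 * (sz π ℓ z * ((Fintype.card V : ℤ) - sz π ℓ z)))
  have h5 : ∑ y ∈ chd r π r, Ph π ℓ y = ∑ x ∈ univ.erase r,
      6 * (sz π ℓ x * ((Fintype.card V : ℤ) - sz π ℓ x)) := by
    rw [h4]; rfl
  rw [h5, ← mul_sum]
  linarith

end

end Pool.Agent.Wien566
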