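import Pool.Agent.Wien566.Poly3
import Pool.Agent.Wien566.Tree

/-!
# The tree bound
-/

namespace Pool.Agent.Wien566

open Finset

variable {V : Type*} [Fintype V] [DecidableEq V] {r : V} {π : V → V} {ℓ : V → ℕ}
  {q d m : ℤ}

theorem desc_sub_X (h : RT r π ℓ) {X : Finset V} 
    (hXc : ∀ y, y ≠ r → π y ∈ X → y ∈ X) {z : V} (hz : z ∈ X) (x : V) :
    z ∈ anc π ℓ x → x ∈ X := by
  refine h.rec_on (P := fun x => z ∈ anc π ℓ x → x ∈ X) ?_ ?_ x
  · rw [anc_root h]; simp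
  · intro x hx ih hzx
    rw [anc_succ h hx, mem_insert] at hzx
    rcases hzx with rfl | hzx
    · exact hz
    · exact hXc x hx (ih hzx)

theorem desc_trans (h : RT r π ℓ) {y z x : V} (hz : z ≠ r) (hy : y ∈ chd r π z)
    (hx : x ∈ desc π ℓ y) : x ∈ desc π ℓ z := by
  rw [desc_eq h hz]
  exact mem_insert_of_mem (mem_biUnion.2 ⟨y, hy, hx⟩)

theorem self_mem_desc (h : RT r π ℓ) {z : V} (hz : z ≠ r) : z ∈ desc π ℓ z :=
  mem_desc.2 (self_mem_anc h hz)

theorem sz_nonneg (z : V) : 0 ≤ sz π ℓ z := by unfold sz; positivity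

theorem claimE (h : RT r π ℓ) (hp : Par (Fintype.card V) q d m) (X : Finset V)
    (hX : (X.card : ℤ) = m) (hrX : r ∉ X) (hXc : ∀ y, y ≠ r → π y ∈ X → y ∈ X)
    (D : ℕ) : ∀ z ∈ X, (∀ x ∈ desc π ℓ z, ℓ x < ℓ z + D) → 2 * (D : ℤ) ≤ d + 1 →
      Ph π ℓ z ≤ F6 (Fintype.card V) q d D (sz π ℓ z) := by
  induction D with
  | zero =>
    intro z hz hd _
    have hzr : z ≠ r := fun e => hrX (e ▸ hz)
    have := hd z (self_mem_desc h hzr)
    omega
  | succ D ih =>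
    intro z hz hd hD
    have hzr : z ≠ r := fun e => hrX (e ▸ hz)
    rw [Ph_eq h hzr, sz_eq h hzr]
    have hch : ∀ y ∈ chd r π z, y ∈ X ∧ y ≠ r ∧ ℓ y = ℓ z + 1 := by
      intro y hy
      rw [mem_chd] at hy
      refine ⟨hXc y hy.1 (by rw [hy.2]; exact hz), hy.1, ?_⟩
      rw [h.lp y hy.1, hy.2]
    have h1 : ∀ y ∈ chd r π z, Ph π ℓ y ≤ F6 (Fintype.card V) q d D (sz π ℓ y) := by
      intro y hy
      obtain ⟨a, b, c⟩ := hch y hy
      refine ih y a ?_ (by push_cast at hD; linarith)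
      intro x hx
      have := hd x (desc_trans h hzr hy hx)
      omega
    have hsz : sz π ℓ z ≤ m := by
      rw [← hX]
      unfold sz
      exact_mod_cast card_le_card fun x hx => desc_sub_X h hXc hz x (mem_desc.1 hx)
    rw [sz_eq h hzr] at hsz
    have h2 : ∑ y ∈ chd r π z, Ph π ℓ y ≤
        F6 (Fintype.card V) q d D (∑ y ∈ chd r π z, sz π ℓ y) := by
      rcases Nat.eq_zero_or_pos D with h0 | h0
      · have : chd r π z = ∅ := by
          rw [eq_empty_iff_forall_notMem]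
          intro y hy
          obtain ⟨a, b, c⟩ := hch y hy
          have := hd y (desc_trans h hzr hy (self_mem_desc h b))
          omega
        rw [this]
        simp [F6_zero (n := Fintype.card V) (q := q) (d := d) (D := (D : ℤ)) (by positivity)]
      · exact le_trans (sum_le_sum h1) (F6_sum hp (by exact_mod_cast h0)
          (by push_cast at hD; linarith) _ _ (fun y _ => sz_nonneg y) (by linarith))
    have h3 := F6_root hp (D := (D : ℤ)) (σ := ∑ y ∈ chd r π z, sz π ℓ y) (by positivity)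
    have e1 : (1 + ∑ y ∈ chd r π z, sz π ℓ y) = (∑ y ∈ chd r π z, sz π ℓ y) + 1 := by ring
    rw [e1]
    push_cast
    rw [h3]
    linarith

/-- number of extras in the subtree -/
def ex (π : V → V) (ℓ : V → ℕ) (X : Finset V) (z : V) : ℤ :=
  ∑ x ∈ desc π ℓ z, if x ∈ X then 1 else 0

theorem ex_nonneg (X : Finset V) (z : V) : 0 ≤ ex π ℓ X z :=
  sum_nonneg fun x _ => by split_ifs <;> simp

theorem ex_le (X : Finset V) (z : V) : ex π ℓ X z ≤ X.card := by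
  unfold ex
  rw [← sum_filter, sum_const, nsmul_eq_mul, mul_one]
  exact_mod_cast card_le_card fun x hx => (mem_filter.1 hx).2

theorem ex_eq_sz (h : RT r π ℓ) {X : Finset V} 
    (hXc : ∀ y, y ≠ r → π y ∈ X → y ∈ X) {z : V} (hz : z ∈ X) :
    ex π ℓ X z = sz π ℓ z := by
  unfold ex sz
  rw [sum_congr rfl (g := fun _ => (1 : ℤ))]
  · simp
  · intro x hx
    rw [if_pos (desc_sub_X h hXc hz x (mem_desc.1 hx))]

/-- a chain hanging from the root -/
structure Chn (r : V) (π : V → V) (ℓ : V → ℕ) (X : Finset V) (w : ℕ → V) (R : ℕ) : Prop where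
  hR : 1 ≤ R
  hne : ∀ i, 1 ≤ i → i ≤ R → w i ≠ r
  hlv : ∀ i, 1 ≤ i → i ≤ R → ℓ (w i) = i
  hX : ∀ i, 1 ≤ i → i ≤ R → w i ∉ X
  hpar : ∀ i, 1 ≤ i → i < R → π (w (i + 1)) = w i
  hch : ∀ i, 1 ≤ i → i ≤ R → ∀ y ∈ chd r π (w i), y ∈ X ∨ (i < R ∧ y = w (i + 1))
  hdp : ∀ i, 1 ≤ i → i ≤ R → ∀ x ∈ desc π ℓ (w i), ℓ x ≤ R

theorem claimM (h : RT r π ℓ) (hp : Par (Fintype.card V) q d m) (X : Finset V)
    (hX : (X.card : ℤ) = m) (hrX : r ∉ X) (hXc : ∀ y, y ≠ r → π y ∈ X → y ∈ X)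
    {w : ℕ → V} {R : ℕ} (hw : Chn r π ℓ X w R) (hRd : 2 * (R : ℤ) ≤ d + 1) (k : ℕ) :
    k < R → sz π ℓ (w (R - k)) = k + 1 + ex π ℓ X (w (R - k)) ∧
      Ph π ℓ (w (R - k)) ≤ G6 (Fintype.card V) q d (k + 1) (ex π ℓ X (w (R - k))) := by
  induction k with
  | zero =>
    intro hk
    simp only [Nat.sub_zero, Nat.cast_zero, zero_add]
    have hne := hw.hne R hw.hR (le_refl _)
    have hch : chd r π (w R) = ∅ := by
      rw [eq_empty_iff_forall_notMem]
      intro y hy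
      have hy' := mem_chd.1 hy
      have h1 := hw.hdp R hw.hR (le_refl _) y (desc_trans h hne hy (self_mem_desc h hy'.1))
      have h2 := h.lp y hy'.1
      rw [hy'.2, hw.hlv R hw.hR (le_refl _)] at h2
      omega
    have hex : ex π ℓ X (w R) = 0 := by
      unfold ex
      rw [sum_desc h hne, hch, if_neg (hw.hX R hw.hR (le_refl _))]; simp
    have hsz : sz π ℓ (w R) = 1 := by rw [sz_eq h hne, hch]; simp
    constructor
    · rw [hsz, hex]; ring
    · rw [Ph_eq h hne, hch, hsz, hex]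
      have := G6_root (n := Fintype.card V) (q := q) (d := d) (D := 0) (a := 0)
      rw [G6_zero_zero hp] at this
      simp only [zero_add, add_zero] at this
      rw [this]; simp
  | succ k ih =>
    intro hk
    obtain ⟨i, hi⟩ : ∃ i, i = R - (k + 1) := ⟨_, rfl⟩
    have hi2 : R - k = i + 1 := by omega
    have hi1 : 1 ≤ i := by omega
    have hiR : i < R := by omega
    rw [← hi]
    rw [hi2] at ih
    obtain ⟨ih1, ih2⟩ := ih (by omega)
    have hne := hw.hne i hi1 hiR.le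
    have hne' := hw.hne (i + 1) (by omega) (by omega)
    have hmem : w (i + 1) ∈ chd r π (w i) := mem_chd.2 ⟨hne', hw.hpar i hi1 hiR⟩
    set C := (chd r π (w i)).erase (w (i + 1)) with hC
    have hCX : ∀ y ∈ C, y ∈ X := by
      intro y hy
      rw [hC, mem_erase] at hy
      rcases hw.hch i hi1 hiR.le y hy.2 with h1 | h1
      · exact h1
      · exact absurd h1.2 hy.1
    have hsum : ∀ f : V → ℤ, ∑ y ∈ chd r π (w i), f y = f (w (i + 1)) + ∑ y ∈ C, f y := by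
      intro f
      rw [← add_sum_erase _ f hmem]
    have hexi : ex π ℓ X (w i) = ex π ℓ X (w (i + 1)) + ∑ y ∈ C, sz π ℓ y := by
      unfold ex
      rw [sum_desc h hne, hsum, if_neg (hw.hX i hi1 hiR.le), zero_add]
      congr 1
      refine sum_congr rfl fun y hy => ?_
      exact ex_eq_sz h hXc (hCX y hy)
    have hszi : sz π ℓ (w i) = 1 + (sz π ℓ (w (i + 1)) + ∑ y ∈ C, sz π ℓ y) := by
      rw [sz_eq h hne, hsum]
    have hCF : ∀ y ∈ C, Ph π ℓ y ≤ F6 (Fintype.card V) q d ((k + 1 : ℕ) : ℤ) (sz π ℓ y) := by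
      intro y hy
      refine claimE h hp X hX hrX hXc (k + 1) y (hCX y hy) ?_ ?_
      · intro x hx
        have hyc : y ∈ chd r π (w i) := (mem_erase.1 hy).2
        have h1 := hw.hdp i hi1 hiR.le x (desc_trans h hne hyc hx)
        have hyc' := mem_chd.1 hyc
        have h2 := h.lp y hyc'.1
        rw [hyc'.2, hw.hlv i hi1 hiR.le] at h2
        omega
      · have : ((k + 1 : ℕ) : ℤ) ≤ R := by exact_mod_cast hk.le
        linarith
    constructor
    · rw [hszi, ih1, hexi]; push_cast; ring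
    · rw [Ph_eq h hne, hsum]
      have h4 := G6_sum hp (D := ((k + 1 : ℕ) : ℤ)) (by push_cast; linarith)
        (by have : ((k + 1 : ℕ) : ℤ) ≤ R := by exact_mod_cast hk.le
            linarith) C (sz π ℓ) (fun y _ => sz_nonneg y) (a := ex π ℓ X (w (i + 1)))
        (ex_nonneg _ _) (by rw [← hexi, ← hX]; exact ex_le X _)
      have h5 := sum_le_sum hCF
      rw [← hexi] at h4
      have h6 := G6_root (n := Fintype.card V) (q := q) (d := d) (D := ((k + 1 : ℕ) : ℤ))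
        (a := ex π ℓ X (w i))
      have h7 : sz π ℓ (w i) = ((k + 1 : ℕ) : ℤ) + 1 + ex π ℓ X (w i) := by
        rw [hszi, ih1, hexi]; push_cast; ring
      rw [h6, h7]
      have h8 : ((k : ℤ) + 1) = ((k + 1 : ℕ) : ℤ) := by push_cast; ring
      rw [h8] at ih2
      linarith

/-- the total bound -/
theorem tree_bound (h : RT r π ℓ) (hp : Par (Fintype.card V) q d m) (X : Finset V)
    (hX : (X.card : ℤ) = m) (hrX : r ∉ X) (hXc : ∀ y, y ≠ r → π y ∈ X → y ∈ X)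
    {w₁ w₂ : ℕ → V} {R₁ R₂ : ℕ} (hw₁ : Chn r π ℓ X w₁ R₁) (hw₂ : Chn r π ℓ X w₂ R₂)
    (hR₁ : 2 * (R₁ : ℤ) ≤ d + 1) (hR₂ : 2 * (R₂ : ℤ) ≤ d + 1)
    (hr₁ : π (w₁ 1) = r) (hr₂ : π (w₂ 1) = r) (hne : w₁ 1 ≠ w₂ 1)
    (hroot : ∀ y ∈ chd r π r, y = w₁ 1 ∨ y = w₂ 1 ∨ (y ∈ X ∧ ∀ x ∈ desc π ℓ y, ℓ x ≤ R₂)) :
    ∃ α β : ℤ, 0 ≤ α ∧ 0 ≤ β ∧ α + β = m ∧
      ∑ y ∈ chd r π r, Ph π ℓ y ≤
        G6 (Fintype.card V) q d R₂ α + G6 (Fintype.card V) q d R₁ β := by
  have hm1 : w₁ 1 ∈ chd r π r := mem_chd.2 ⟨hw₁.hne 1 (le_refl _) hw₁.hR, hr₁⟩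
  have hm2 : w₂ 1 ∈ (chd r π r).erase (w₁ 1) :=
    mem_erase.2 ⟨hne.symm, mem_chd.2 ⟨hw₂.hne 1 (le_refl _) hw₂.hR, hr₂⟩⟩
  set C := ((chd r π r).erase (w₁ 1)).erase (w₂ 1) with hC
  have hsum : ∀ f : V → ℤ, ∑ y ∈ chd r π r, f y = f (w₁ 1) + (f (w₂ 1) + ∑ y ∈ C, f y) := by
    intro f
    rw [← add_sum_erase _ f hm1, ← add_sum_erase _ f hm2]
  have hCX : ∀ y ∈ C, y ∈ X ∧ ∀ x ∈ desc π ℓ y, ℓ x ≤ R₂ := by
    intro y hy
    rw [hC, mem_erase, mem_erase] at hy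
    rcases hroot y hy.2.2 with h1 | h1 | h1
    · exact absurd h1 hy.2.1
    · exact absurd h1 hy.1
    · exact h1
  obtain ⟨_, hM1⟩ := claimM h hp X hX hrX hXc hw₁ hR₁ (R₁ - 1) (by have := hw₁.hR; omega)
  obtain ⟨_, hM2⟩ := claimM h hp X hX hrX hXc hw₂ hR₂ (R₂ - 1) (by have := hw₂.hR; omega)
  have e1 : R₁ - (R₁ - 1) = 1 := by have := hw₁.hR; omega
  have e2 : R₂ - (R₂ - 1) = 1 := by have := hw₂.hR; omega
  have e3 : (((R₁ - 1 : ℕ) : ℤ) + 1) = R₁ := by have := hw₁.hR; omega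
  have e4 : (((R₂ - 1 : ℕ) : ℤ) + 1) = R₂ := by have := hw₂.hR; omega
  rw [e1, e3] at hM1
  rw [e2, e4] at hM2
  have htot : m = ex π ℓ X (w₁ 1) + (ex π ℓ X (w₂ 1) + ∑ y ∈ C, sz π ℓ y) := by
    have h1 := sum_root h (fun x => if x ∈ X then (1 : ℤ) else 0)
    rw [hsum (fun y => ∑ x ∈ desc π ℓ y, if x ∈ X then (1 : ℤ) else 0)] at h1
    have h2 : ∑ x ∈ univ.erase r, (if x ∈ X then (1 : ℤ) else 0) = X.card := by
      rw [← sum_filter, sum_const, nsmul_eq_mul, mul_one]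
      congr 2
      ext x
      simp only [mem_filter, mem_erase, mem_univ, and_true]
      constructor
      · rintro ⟨_, a⟩; exact a
      · intro a
        refine ⟨?_, a⟩
        rintro rfl; exact hrX a
    rw [h2, hX] at h1
    rw [h1]
    unfold ex
    congr 2
    refine sum_congr rfl fun y hy => ?_
    exact ex_eq_sz h hXc (hCX y hy).1
  refine ⟨ex π ℓ X (w₂ 1) + ∑ y ∈ C, sz π ℓ y, ex π ℓ X (w₁ 1), ?_, ex_nonneg _ _, ?_, ?_⟩
  · exact add_nonneg (ex_nonneg _ _) (sum_nonneg fun y _ => sz_nonneg y)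
  · rw [htot]; ring
  · rw [hsum]
    have hR2' := hw₂.hR
    have hCF : ∀ y ∈ C, Ph π ℓ y ≤ F6 (Fintype.card V) q d R₂ (sz π ℓ y) := by
      intro y hy
      refine claimE h hp X hX hrX hXc R₂ y (hCX y hy).1 ?_ hR₂
      intro x hx
      have h1 := (hCX y hy).2 x hx
      rw [hC, mem_erase, mem_erase, mem_chd] at hy
      have h2 := h.lp y hy.2.2.1
      omega
    have h4 := G6_sum hp (D := (R₂ : ℤ)) (by exact_mod_cast hR2') hR₂ C (sz π ℓ)
      (fun y _ => sz_nonneg y) (a := ex π ℓ X (w₂ 1)) (ex_nonneg _ _)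
      (by have := ex_nonneg (π := π) (ℓ := ℓ) X (w₁ 1); linarith)
    have h5 := sum_le_sum hCF
    linarith

end Pool.Agent.Wien566
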