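import Pool.Agent.Wien566.Geo

/-!
# Depth of the breadth first tree; the two exceptional parameter pairs
-/

namespace Pool.Agent.Wien566

open Finset

section

variable {V : Type*} {G : SimpleGraph V}

theorem exists_geo (hc : G.Connected) (y : V) (n : ℕ) : ∀ x : V, G.dist x y = n →
    ∃ e : ℕ → V, e 0 = x ∧ e n = y ∧
      ∀ i j, i ≤ j → j ≤ n → G.dist (e i) (e j) = j - i := by
  induction n with
  | zero =>
    intro x hx
    have hxy : x = y := hc.dist_eq_zero_iff.1 hx
    refine ⟨fun _ => x, rfl, hxy, ?_⟩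
    intro i j hij hj
    simp; omega
  | succ n ih =>
    intro x hx
    have hxy : x ≠ y := by
      rintro rfl
      simp at hx
    obtain ⟨z, hz1, hz2⟩ := exists_step hc hxy
    obtain ⟨e, e0, en, he⟩ := ih z (by omega)
    have hxz : G.dist x z = 1 := SimpleGraph.dist_eq_one_iff_adj.2 hz1
    refine ⟨fun k => if k = 0 then x else e (k - 1), by simp, by simp [en], ?_⟩
    intro i j hij hj
    rcases Nat.eq_zero_or_pos i with hi | hi
    · subst hi
      rcases Nat.eq_zero_or_pos j with hj0 | hj0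
      · subst hj0; simp
      · have hj1 : j ≠ 0 := by omega
        simp only [if_true, if_neg hj1]
        have h1 : G.dist x (e (j - 1)) ≤ G.dist x z + G.dist z (e (j - 1)) := hc.dist_triangle
        have h2 := he 0 (j - 1) (by omega) (by omega)
        rw [e0] at h2
        have h3 : G.dist x y ≤ G.dist x (e (j - 1)) + G.dist (e (j - 1)) y := hc.dist_triangle
        have h4 := he (j - 1) n (by omega) (le_refl _)
        rw [en] at h4
        omega
    · have hi1 : i ≠ 0 := by omega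
      have hj1 : j ≠ 0 := by omega
      simp only [if_neg hi1, if_neg hj1]
      rw [he (i - 1) (j - 1) (by omega) (by omega)]
      omega

variable [Fintype V] [DecidableEq V]

theorem exists_hit {v : ℕ → V} {d : ℕ} (h : DP G v d) {x : V} (hx : x ∈ extras v d) {t : ℕ}
    (ht : t ≤ d) : ∃ (e : ℕ → V) (L i : ℕ), i ≤ d ∧ e 0 = x ∧ e L = v i ∧ 1 ≤ L ∧
      (∀ k < L, e k ∈ extras v d) ∧
      (∀ k l, k ≤ l → l ≤ L → G.dist (e k) (e l) = l - k) ∧
      L + G.dist (v i) (v t) = G.dist x (v t) := by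
  obtain ⟨e, e0, en, he⟩ := exists_geo h.hc (v t) _ x rfl
  have hex : ∃ k, k ≤ G.dist x (v t) ∧ e k ∉ extras v d :=
    ⟨G.dist x (v t), le_refl _, by
      rw [en]; intro hh; exact (mem_extras.1 hh) t ht rfl⟩
  classical
  obtain ⟨h1, h2⟩ := Nat.find_spec hex
  set L := Nat.find hex with hL
  have h3 : ∀ k < L, e k ∈ extras v d := by
    intro k hk
    by_contra hn
    exact Nat.find_min hex hk ⟨by omega, hn⟩
  rw [mem_extras] at h2
  push Not at h2
  obtain ⟨i, hi, hei⟩ := h2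
  refine ⟨e, L, i, hi, e0, hei, ?_, h3, ?_, ?_⟩
  · by_contra h0
    have : L = 0 := by omega
    rw [this, e0] at hei
    exact (mem_extras.1 hx) i hi hei
  · intro k l hkl hl
    exact he k l hkl (by omega)
  · have := he L _ h1 (le_refl _)
    rw [hei, en] at this
    omega

/-- two geodesics from `x` to the ends of the path -/
structure TG (G : SimpleGraph V) (v : ℕ → V) (d : ℕ) (x : V) (e f : ℕ → V)
    (i j s h1 h2 : ℕ) : Prop where
  hi : i ≤ d
  hj : j ≤ d
  e0 : e 0 = x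
  f0 : f 0 = x
  e1 : e h1 = v i
  f1 : f h2 = v j
  hed : h1 + i ≤ d
  hfd : h2 ≤ j
  eX : ∀ k < h1, e k ∈ extras v d
  fX : ∀ k < h2, f k ∈ extras v d
  eg : ∀ k l, k ≤ l → l ≤ h1 → G.dist (e k) (e l) = l - k
  fg : ∀ k l, k ≤ l → l ≤ h2 → G.dist (f k) (f l) = l - k
  hs1 : s < h1
  hs2 : s < h2
  hes : e s = f s
  hne : ∀ k l, k < h1 → s < l → l < h2 → e k ≠ f l

theorem exists_TG {v : ℕ → V} {d : ℕ} (h : DP G v d) {x : V} (hx : x ∈ extras v d) :
    ∃ (e f : ℕ → V) (i j s h1 h2 : ℕ), TG G v d x e f i j s h1 h2 := by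
  obtain ⟨e, h1, i, hi, e0, e1, hh1, eX, eg, hed⟩ := exists_hit h hx (t := 0) (by omega)
  obtain ⟨f, h2, j, hj, f0, f1, hh2, fX, fg, hfd⟩ := exists_hit h hx (t := d) (le_refl _)
  classical
  let P : ℕ → Prop := fun k => k < h1 ∧ k < h2 ∧ e k = f k
  have hP0 : P 0 := ⟨by omega, by omega, by rw [e0, f0]⟩
  have hsp : P (Nat.findGreatest P h1) := Nat.findGreatest_spec (Nat.zero_le _) hP0
  obtain ⟨hs1, hs2, hes⟩ := hsp
  refine ⟨e, f, i, j, Nat.findGreatest P h1, h1, h2, hi, hj, e0, f0, e1, f1, ?_, ?_, eX, fX,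
    eg, fg, hs1, hs2, hes, ?_⟩
  · have := h.hd x (v 0)
    rw [h.hv' (Nat.zero_le i) hi] at hed
    omega
  · have := h.hd x (v d)
    rw [h.hv j d hj (le_refl _)] at hfd
    omega
  · intro k l hk hl1 hl2 hkl
    have h3 := eg 0 k (by omega) hk.le
    have h4 := fg 0 l (by omega) hl2.le
    rw [e0] at h3
    rw [f0, ← hkl] at h4
    have h5 : k = l := by omega
    subst h5
    exact Nat.findGreatest_is_greatest hl1 hk.le ⟨hk, hl2, hkl⟩

variable {v : ℕ → V} {d : ℕ} {x : V} {e f : ℕ → V} {i j s h1 h2 : ℕ}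

/-- enumeration of the vertices of the two geodesics -/
def gg (e f : ℕ → V) (s h1 : ℕ) (k : ℕ) : V := if k < h1 then e k else f (k - h1 + s + 1)

theorem TG.gg_inj (T : TG G v d x e f i j s h1 h2) :
    Set.InjOn (gg e f s h1) (range (h1 + (h2 - s - 1)) : Finset ℕ) := by
  intro a ha b hb hab
  rw [coe_range, Set.mem_Iio] at ha hb
  unfold gg at hab
  have hs2 := T.hs2
  split_ifs at hab with h3 h4 h4
  · rcases le_total a b with h5 | h5
    · have := T.eg a b h5 h4.le
      rw [hab, SimpleGraph.dist_self] at this; omega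
    · have := T.eg b a h5 h3.le
      rw [hab, SimpleGraph.dist_self] at this; omega
  · exact absurd hab (T.hne _ _ h3 (by omega) (by omega))
  · exact absurd hab.symm (T.hne _ _ h4 (by omega) (by omega))
  · rcases le_total a b with h5 | h5
    · have := T.fg (a - h1 + s + 1) (b - h1 + s + 1) (by omega) (by omega)
      rw [hab, SimpleGraph.dist_self] at this; omega
    · have := T.fg (b - h1 + s + 1) (a - h1 + s + 1) (by omega) (by omega)
      rw [hab, SimpleGraph.dist_self] at this; omega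

theorem TG.gg_mem (T : TG G v d x e f i j s h1 h2) {k : ℕ} (hk : k < h1 + (h2 - s - 1)) :
    gg e f s h1 k ∈ extras v d := by
  unfold gg
  have hs2 := T.hs2
  split_ifs with h3
  · exact T.eX k h3
  · exact T.fX _ (by omega)

theorem TG.card_img (T : TG G v d x e f i j s h1 h2) :
    ((range (h1 + (h2 - s - 1))).image (gg e f s h1)).card = h1 + (h2 - s - 1) := by
  rw [card_image_of_injOn T.gg_inj, card_range]

theorem TG.sub_img (T : TG G v d x e f i j s h1 h2) :
    (range (h1 + (h2 - s - 1))).image (gg e f s h1) ⊆ extras v d := by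
  intro y hy
  rw [mem_image] at hy
  obtain ⟨k, hk, rfl⟩ := hy
  exact T.gg_mem (mem_range.1 hk)

theorem TG.card_le (T : TG G v d x e f i j s h1 h2) :
    h1 + (h2 - s - 1) ≤ (extras v d).card := by
  rw [← T.card_img]
  exact card_le_card T.sub_img

/-- distance along the path, symmetric -/
theorem DP.dist_eq (h : DP G v d) {a b : ℕ} (ha : a ≤ d) (hb : b ≤ d) :
    G.dist (v a) (v b) = (a - b) + (b - a) := by
  rcases le_total a b with hab | hab
  · rw [h.hv a b hab hb]; omega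
  · rw [h.hv' hab ha]; omega

theorem TG.e_dist (h : DP G v d) (T : TG G v d x e f i j s h1 h2) {k a : ℕ} (hk : k ≤ h1)
    (ha : a ≤ d) : G.dist (e k) (v a) ≤ (h1 - k) + ((i - a) + (a - i)) := by
  have h3 : G.dist (e k) (v a) ≤ G.dist (e k) (e h1) + G.dist (e h1) (v a) := h.hc.dist_triangle
  rw [T.eg k h1 hk (le_refl _), T.e1, h.dist_eq T.hi ha] at h3
  exact h3

theorem TG.f_dist (h : DP G v d) (T : TG G v d x e f i j s h1 h2) {k a : ℕ} (hk : k ≤ h2)
    (ha : a ≤ d) : G.dist (f k) (v a) ≤ (h2 - k) + ((j - a) + (a - j)) := by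
  have h3 : G.dist (f k) (v a) ≤ G.dist (f k) (f h2) + G.dist (f h2) (v a) := h.hc.dist_triangle
  rw [T.fg k h2 hk (le_refl _), T.f1, h.dist_eq T.hj ha] at h3
  exact h3

theorem TG.ji (h : DP G v d) (T : TG G v d x e f i j s h1 h2) :
    j ≤ i + ((h1 - s) + (h2 - s)) := by
  have h3 : G.dist (v i) (v j) ≤ G.dist (v i) (e s) + G.dist (e s) (v j) := h.hc.dist_triangle
  rw [T.hes] at h3
  have h4 := T.fg s h2 T.hs2.le (le_refl _)
  rw [T.f1] at h4
  have h5 := T.eg s h1 T.hs1.le (le_refl _)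
  rw [T.e1, T.hes, SimpleGraph.dist_comm] at h5
  rw [h4, h5, h.dist_eq T.hi T.hj] at h3
  omega

/-- consequence of a violation of the depth bounds -/
theorem TG.viol (h : DP G v d) (T : TG G v d x e f i j s h1 h2) {c : ℕ} (hc : c = d / 2)
    (hd3 : 3 ≤ d)
    (hv : (Rt G v c x ∧ d - c < G.dist x (v c)) ∨ (¬ Rt G v c x ∧ c < G.dist x (v c))) :
    i ≤ c ∧ c + 1 ≤ j ∧ d ≤ 2 * (h1 + (h2 - s - 1)) ∧
      ((2 * c + 2 ≤ h2 + j ∧ i + 1 ≤ h1 ∧ c + 1 ≤ h1 + (h2 - s - 1)) ∨
        (d + 1 ≤ h2 + j ∧ d + 1 + i ≤ 2 * c + h1 ∧ d ≤ c + (h1 + (h2 - s - 1)))) := by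
  have a1 := T.e_dist h (k := 0) (a := c) (by omega) (by omega)
  have a2 := T.e_dist h (k := 0) (a := c + 1) (by omega) (by omega)
  have a3 := T.f_dist h (k := 0) (a := c) (by omega) (by omega)
  have a4 := T.f_dist h (k := 0) (a := c + 1) (by omega) (by omega)
  rw [T.e0] at a1 a2
  rw [T.f0] at a3 a4
  have a5 : G.dist x (v c) ≤ G.dist x (v (c + 1)) + G.dist (v (c + 1)) (v c) := h.hc.dist_triangle
  rw [h.dist_eq (by omega) (by omega)] at a5
  have a6 := T.hed
  have a7 := T.hfd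
  have a8 := T.ji h
  have a9 := T.hs1
  have a10 := T.hs2
  have a11 := T.hj
  unfold Rt at hv
  rcases hv with ⟨b1, b2⟩ | ⟨b1, b2⟩
  · have c1 : i ≤ c := by omega
    have c2 : c + 1 ≤ j := by omega
    have c3 : d + 1 ≤ h2 + j := by omega
    have c4 : d + 1 + i ≤ 2 * c + h1 := by omega
    have c5 : d ≤ c + (h1 + (h2 - s - 1)) := by omega
    exact ⟨c1, c2, by omega, Or.inr ⟨c3, c4, c5⟩⟩
  · have c1 : i ≤ c := by omega
    have c2 : c + 1 ≤ j := by omega
    have c3 : 2 * c + 2 ≤ h2 + j := by omega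
    have c4 : i + 1 ≤ h1 := by omega
    have c5 : c + 1 ≤ h1 + (h2 - s - 1) := by omega
    exact ⟨c1, c2, by omega, Or.inl ⟨c3, c4, c5⟩⟩

/-- the parameters of a violation -/
theorem Par.exc {n q d m : ℤ} (hp : Par n q d m) (h : d ≤ 2 * m) :
    (d = 9 ∨ d = 10) ∧ m = 5 := by
  have h1 := hp.hd
  have h2 := hp.hmq
  have h3 : (q - 2) ^ 2 ≤ 0 := by nlinarith
  have h4 : q = 2 := by
    have := pow_eq_zero_iff (two_ne_zero) |>.mp (le_antisymm h3 (sq_nonneg (q - 2)))
    linarith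
  subst h4
  constructor <;> omega

end

end Pool.Agent.Wien566
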