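import Pool.Agent.Wien566.Depth

/-!
# The two exceptional parameter pairs
-/

namespace Pool.Agent.Wien566

open Finset

/-- absolute difference -/
def ad (a b : ℕ) : ℕ := (a - b) + (b - a)

/-- upper bounds for the distances in the enumeration -/
def M0 (d i j s h1 h2 a b : ℕ) : ℕ :=
  if b ≤ d then b - a
  else if b - (d + 1) < h1 then
    (if a ≤ d then
      min ((h1 - (b - (d + 1))) + ad i a) (ad (b - (d + 1)) s + ((h2 - s) + ad j a))
     else (b - (d + 1)) - (a - (d + 1)))
  else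
    (if a ≤ d then (h2 - (b - (d + 1) - h1 + s + 1)) + ad j a
     else if a - (d + 1) < h1 then ad (a - (d + 1)) s + ((b - (d + 1) - h1 + s + 1) - s)
     else (b - (d + 1) - h1 + s + 1) - (a - (d + 1) - h1 + s + 1))

/-- symmetric version -/
def MM (d i j s h1 h2 a b : ℕ) : ℕ :=
  if a ≤ b then M0 d i j s h1 h2 a b else M0 d i j s h1 h2 b a

/-- recursive sum -/
def sm (f : ℕ → ℕ) : ℕ → ℕ
  | 0 => 0
  | n + 1 => sm f n + f n

theorem sm_eq (f : ℕ → ℕ) (n : ℕ) : sm f n = ∑ a ∈ range n, f a := by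
  induction n with
  | zero => rfl
  | succ n ih => rw [sm, ih, sum_range_succ]

def chkE (d T i j s h1 : ℕ) : Bool :=
  !(decide (s < h1) && decide (s < 6 + s - h1) && decide (i ≤ d / 2) && decide (d / 2 + 1 ≤ j) &&
      decide (j ≤ d) && decide (6 + s - h1 ≤ j) && decide (h1 + i ≤ d) &&
      decide (j ≤ i + ((h1 - s) + (6 + s - h1 - s))) &&
      (decide (2 * (d / 2) + 2 ≤ 6 + s - h1 + j ∧ i + 1 ≤ h1) ||
        decide (d + 1 ≤ 6 + s - h1 + j ∧ d + 1 + i ≤ 2 * (d / 2) + h1))) ||
    decide (sm (fun a => sm (fun b => MM d i j s h1 (6 + s - h1) a b) (d + 6)) (d + 6) ≤ T)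

theorem chkE9 : ∀ i : Fin 11, ∀ j : Fin 11, ∀ s : Fin 6, ∀ h1 : Fin 6,
    chkE 9 924 i j s h1 = true := by decide +kernel

theorem chkE10 : ∀ i : Fin 11, ∀ j : Fin 11, ∀ s : Fin 6, ∀ h1 : Fin 6,
    chkE 10 1146 i j s h1 = true := by decide +kernel

variable {V : Type*} {G : SimpleGraph V} [Fintype V] [DecidableEq V]

variable {v : ℕ → V} {d : ℕ} {x : V} {e f : ℕ → V} {i j s h1 h2 : ℕ}

theorem TG.ee (T : TG G v d x e f i j s h1 h2) {k l : ℕ} (hk : k ≤ h1) (hl : l ≤ h1) :
    G.dist (e k) (e l) = ad k l := by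
  unfold ad
  rcases le_total k l with hab | hab
  · rw [T.eg k l hab hl]; omega
  · rw [SimpleGraph.dist_comm, T.eg l k hab hk]; omega

/-- enumeration of all vertices -/
def uu (v e f : ℕ → V) (d s h1 : ℕ) (a : ℕ) : V :=
  if a ≤ d then v a else gg e f s h1 (a - (d + 1))

theorem TG.uu_dist (h : DP G v d) (T : TG G v d x e f i j s h1 h2) {a b : ℕ} (hab : a ≤ b)
    (hb : b < d + 1 + (h1 + (h2 - s - 1))) :
    G.dist (uu v e f d s h1 a) (uu v e f d s h1 b) ≤ M0 d i j s h1 h2 a b := by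
  have hs1 := T.hs1
  have hs2 := T.hs2
  unfold uu M0 gg
  by_cases b1 : b ≤ d
  · rw [if_pos b1, if_pos b1, if_pos (hab.trans b1)]
    rw [h.hv a b hab b1]
  · rw [if_neg b1, if_neg b1]
    by_cases b2 : b - (d + 1) < h1
    · rw [if_pos b2, if_pos b2]
      by_cases a1 : a ≤ d
      · rw [if_pos a1, if_pos a1, SimpleGraph.dist_comm]
        apply le_min
        · exact T.e_dist h b2.le a1
        · have h3 : G.dist (e (b - (d + 1))) (v a) ≤
              G.dist (e (b - (d + 1))) (e s) + G.dist (e s) (v a) := h.hc.dist_triangle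
          rw [T.ee b2.le hs1.le, T.hes] at h3
          have h4 := T.f_dist h (k := s) (a := a) hs2.le a1
          unfold ad at *
          omega
      · rw [if_neg a1, if_neg a1, if_pos (by omega : a - (d + 1) < h1)]
        rw [T.eg (a - (d + 1)) (b - (d + 1)) (by omega) b2.le]
    · rw [if_neg b2, if_neg b2]
      have hk : b - (d + 1) - h1 + s + 1 ≤ h2 := by omega
      by_cases a1 : a ≤ d
      · rw [if_pos a1, if_pos a1, SimpleGraph.dist_comm]
        exact T.f_dist h hk a1
      · rw [if_neg a1, if_neg a1]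
        by_cases a2 : a - (d + 1) < h1
        · rw [if_pos a2, if_pos a2]
          have h3 : G.dist (e (a - (d + 1))) (f (b - (d + 1) - h1 + s + 1)) ≤
              G.dist (e (a - (d + 1))) (e s) + G.dist (e s) (f (b - (d + 1) - h1 + s + 1)) :=
            h.hc.dist_triangle
          rw [T.ee a2.le hs1.le, T.hes, T.fg s _ (by omega) hk] at h3
          exact h3
        · rw [if_neg a2, if_neg a2]
          rw [T.fg _ _ (by omega) hk]

theorem exc_bound (h : DP G v d) (T : TG G v d x e f i j s h1 h2)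
    (hcard : (extras v d).card = 5) (hd : d = 9 ∨ d = 10)
    (hi : i ≤ d / 2) (hj : d / 2 + 1 ≤ j) (hN : d ≤ 2 * (h1 + (h2 - s - 1)))
    (hAB : (2 * (d / 2) + 2 ≤ h2 + j ∧ i + 1 ≤ h1 ∧ d / 2 + 1 ≤ h1 + (h2 - s - 1)) ∨
        (d + 1 ≤ h2 + j ∧ d + 1 + i ≤ 2 * (d / 2) + h1 ∧ d ≤ d / 2 + (h1 + (h2 - s - 1)))) :
    ∑ x, ∑ y, G.dist x y ≤ if d = 9 then 924 else 1146 := by
  have hs1 := T.hs1
  have hs2 := T.hs2
  have hle := T.card_le
  rw [hcard] at hle
  have hN5 : h1 + (h2 - s - 1) = 5 := by omega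
  have hh2 : h2 = 6 + s - h1 := by omega
  have himg : (range (h1 + (h2 - s - 1))).image (gg e f s h1) = extras v d :=
    eq_of_subset_of_card_le T.sub_img (by rw [T.card_img, hcard, hN5])
  have hsurj : (range (d + 6)).image (uu v e f d s h1) = univ := by
    rw [eq_univ_iff_forall]
    intro y
    rw [mem_image]
    by_cases hy : y ∈ extras v d
    · rw [← himg, mem_image] at hy
      obtain ⟨k, hk, rfl⟩ := hy
      rw [mem_range, hN5] at hk
      refine ⟨d + 1 + k, mem_range.2 (by omega), ?_⟩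
      unfold uu
      rw [if_neg (by omega), show d + 1 + k - (d + 1) = k by omega]
    · rw [mem_extras] at hy
      push Not at hy
      obtain ⟨k, hk, rfl⟩ := hy
      refine ⟨k, mem_range.2 (by omega), ?_⟩
      unfold uu
      rw [if_pos hk]
  have hinj : Set.InjOn (uu v e f d s h1) (range (d + 6) : Finset ℕ) := by
    rw [← card_image_iff, hsurj, card_univ, card_range, ← h.card, hcard]; omega
  have hsum : ∑ x, ∑ y, G.dist x y = ∑ a ∈ range (d + 6), ∑ b ∈ range (d + 6),
      G.dist (uu v e f d s h1 a) (uu v e f d s h1 b) := by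
    rw [← hsurj, sum_image hinj]
    refine sum_congr rfl fun a _ => ?_
    rw [sum_image hinj]
  have hle2 : ∑ a ∈ range (d + 6), ∑ b ∈ range (d + 6),
      G.dist (uu v e f d s h1 a) (uu v e f d s h1 b) ≤
      sm (fun a => sm (fun b => MM d i j s h1 (6 + s - h1) a b) (d + 6)) (d + 6) := by
    rw [sm_eq]
    refine sum_le_sum fun a ha => ?_
    rw [sm_eq]
    refine sum_le_sum fun b hb => ?_
    rw [mem_range] at ha hb
    rw [← hh2]
    unfold MM
    split_ifs with hab
    · exact T.uu_dist h hab (by omega)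
    · rw [SimpleGraph.dist_comm]
      exact T.uu_dist h (by omega) (by omega)
  rw [hsum]
  refine hle2.trans ?_
  have hed := T.hed
  have hfd := T.hfd
  have hjd := T.hj
  have hji := T.ji h
  have key : ∀ D Tt : ℕ, d = D → chkE D Tt i j s h1 = true →
      sm (fun a => sm (fun b => MM d i j s h1 (6 + s - h1) a b) (d + 6)) (d + 6) ≤ Tt := by
    intro D Tt hD hch
    subst hD
    unfold chkE at hch
    rw [Bool.or_eq_true] at hch
    rcases hch with hch | hch
    · exfalso
      simp only [Bool.not_eq_true', Bool.and_eq_false_iff, decide_eq_false_iff_not,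
        Bool.or_eq_false_iff] at hch
      omega
    · exact of_decide_eq_true hch
  rcases hd with hd | hd
  · rw [if_pos hd]
    exact key 9 924 hd (chkE9 ⟨i, by omega⟩ ⟨j, by omega⟩ ⟨s, by omega⟩ ⟨h1, by omega⟩)
  · rw [if_neg (by omega)]
    exact key 10 1146 hd (chkE10 ⟨i, by omega⟩ ⟨j, by omega⟩ ⟨s, by omega⟩ ⟨h1, by omega⟩)

end Pool.Agent.Wien566
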