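import Pool.Agent.Wien566.Chain

/-!
# The breadth first tree along a diametral path
-/

namespace Pool.Agent.Wien566

open Finset

variable {V : Type*} {G : SimpleGraph V}

theorem exists_step (hc : G.Connected) {x y : V} (hxy : x ≠ y) :
    ∃ z, G.Adj x z ∧ G.dist z y + 1 = G.dist x y := by
  obtain ⟨p, hp⟩ := hc.exists_walk_length_eq_dist x y
  cases p with
  | nil => exact absurd rfl hxy
  | @cons _ z _ hadj q =>
    refine ⟨z, hadj, ?_⟩
    have h1 : G.dist z y ≤ q.length := SimpleGraph.dist_le q
    have h2 : G.dist x y ≤ G.dist x z + G.dist z y := hc.dist_triangle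
    have h3 : G.dist x z = 1 := SimpleGraph.dist_eq_one_iff_adj.2 hadj
    simp only [SimpleGraph.Walk.length_cons] at hp
    omega

/-- a diametral path -/
structure DP (G : SimpleGraph V) (v : ℕ → V) (d : ℕ) : Prop where
  hc : G.Connected
  hv : ∀ i j, i ≤ j → j ≤ d → G.dist (v i) (v j) = j - i
  hd : ∀ x y, G.dist x y ≤ d

/-- right side -/
def Rt (G : SimpleGraph V) (v : ℕ → V) (c : ℕ) (x : V) : Prop :=
  G.dist x (v (c + 1)) + 1 = G.dist x (v c)

theorem DP.hv' {v : ℕ → V} {d : ℕ} (h : DP G v d) {i j : ℕ} (hij : i ≤ j) (hj : j ≤ d) :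
    G.dist (v j) (v i) = j - i := by
  rw [SimpleGraph.dist_comm]; exact h.hv i j hij hj

theorem DP.inj {v : ℕ → V} {d : ℕ} (h : DP G v d) {i j : ℕ} (hi : i ≤ d) (hj : j ≤ d)
    (e : v i = v j) : i = j := by
  rcases le_total i j with hij | hij
  · have := h.hv i j hij hj
    rw [e, SimpleGraph.dist_self] at this
    omega
  · have := h.hv j i hij hi
    rw [e, SimpleGraph.dist_self] at this
    omega

theorem DP.adj {v : ℕ → V} {d : ℕ} (h : DP G v d) {i : ℕ} (hi : i < d) :
    G.Adj (v i) (v (i + 1)) := by
  have := h.hv i (i + 1) (by omega) (by omega)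
  rw [← SimpleGraph.dist_eq_one_iff_adj, this]; omega

theorem exists_parent {v : ℕ → V} {d c : ℕ} (h : DP G v d) (hc1 : 1 ≤ c) (hcd : c < d) (x : V)
    (hx : x ≠ v c) :
    ∃ y, G.Adj x y ∧ G.dist x (v c) = G.dist y (v c) + 1 ∧
      (∀ i, i < c → x = v i → y = v (i + 1)) ∧
      (∀ i, c < i → i ≤ d → x = v i → y = v (i - 1)) ∧
      ((∀ i ≤ d, x ≠ v i) → (Rt G v c x → Rt G v c y) ∧ (¬ Rt G v c x → ¬ Rt G v c y)) := by
  by_cases hP : ∃ i ≤ d, x = v i
  · obtain ⟨i, hid, rfl⟩ := hP
    have hic : i ≠ c := by rintro rfl; exact hx rfl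
    rcases lt_or_gt_of_ne hic with hic | hic
    · refine ⟨v (i + 1), h.adj (by omega), ?_, ?_, ?_, ?_⟩
      · rw [h.hv i c hic.le (by omega), h.hv (i + 1) c (by omega) (by omega)]; omega
      · intro j hj e
        rw [h.inj hid (by omega) e]
      · intro j hj hjd e
        have := h.inj hid hjd e
        omega
      · intro hn; exact absurd rfl (hn i hid)
    · refine ⟨v (i - 1), ?_, ?_, ?_, ?_, ?_⟩
      · have := h.adj (i := i - 1) (by omega)
        rw [show i - 1 + 1 = i by omega] at this
        exact this.symm
      · rw [h.hv' hic.le hid, h.hv' (by omega : c ≤ i - 1) (by omega)]; omega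
      · intro j hj e
        have := h.inj hid (by omega) e
        omega
      · intro j hj hjd e
        rw [h.inj hid hjd e]
      · intro hn; exact absurd rfl (hn i hid)
  · push Not at hP
    by_cases hR : Rt G v c x
    · obtain ⟨y, hy1, hy2⟩ := exists_step h.hc (hP (c + 1) (by omega))
      have hR' := hR
      unfold Rt at hR'
      have h1 : G.dist y (v c) ≤ G.dist y (v (c + 1)) + G.dist (v (c + 1)) (v c) :=
        h.hc.dist_triangle
      have h2 : G.dist (v (c + 1)) (v c) = 1 := by
        rw [h.hv' (by omega : c ≤ c + 1) (by omega)]; omega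
      have h3 : G.dist x (v c) ≤ G.dist x y + G.dist y (v c) := h.hc.dist_triangle
      have h4 : G.dist x y = 1 := SimpleGraph.dist_eq_one_iff_adj.2 hy1
      refine ⟨y, hy1, by omega, ?_, ?_, ?_⟩
      · intro i hi e; exact absurd e (hP i (by omega))
      · intro i hi hid e; exact absurd e (hP i hid)
      · intro _
        refine ⟨fun _ => ?_, fun hn => absurd hR hn⟩
        unfold Rt; omega
    · obtain ⟨y, hy1, hy2⟩ := exists_step h.hc hx
      refine ⟨y, hy1, by omega, ?_, ?_, ?_⟩
      · intro i hi e; exact absurd e (hP i (by omega))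
      · intro i hi hid e; exact absurd e (hP i hid)
      · intro _
        refine ⟨fun hn => absurd hn hR, fun _ => ?_⟩
        intro hRy
        unfold Rt at hRy
        apply hR
        unfold Rt
        have h1 : G.dist x (v (c + 1)) ≤ G.dist x y + G.dist y (v (c + 1)) := h.hc.dist_triangle
        have h4 : G.dist x y = 1 := SimpleGraph.dist_eq_one_iff_adj.2 hy1
        have h5 : G.dist x (v c) ≤ G.dist x (v (c + 1)) + G.dist (v (c + 1)) (v c) :=
          h.hc.dist_triangle
        have h2 : G.dist (v (c + 1)) (v c) = 1 := by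
          rw [h.hv' (by omega : c ≤ c + 1) (by omega)]; omega
        omega

variable [Fintype V] [DecidableEq V]

theorem desc_closed {r : V} {π : V → V} {ℓ : V → ℕ} (h : RT r π ℓ) {Q : V → Prop}
    (hQ : ∀ y, y ≠ r → π y ≠ r → Q (π y) → Q y) {z : V} (hz : Q z) (x : V) :
    z ∈ anc π ℓ x → Q x := by
  refine h.rec_on (P := fun x => z ∈ anc π ℓ x → Q x) ?_ ?_ x
  · rw [anc_root h]; simp
  · intro x hx ih hzx
    rw [anc_succ h hx, mem_insert] at hzx
    rcases hzx with rfl | hzx
    · exact hz
    · refine hQ x hx ?_ (ih hzx)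
      intro e
      rw [e, anc_root h] at hzx
      simp at hzx

/-- the extras -/
def extras (v : ℕ → V) (d : ℕ) : Finset V := univ \ (range (d + 1)).image v

theorem mem_extras {v : ℕ → V} {d : ℕ} {x : V} : x ∈ extras v d ↔ ∀ i ≤ d, x ≠ v i := by
  simp only [extras, mem_sdiff, mem_univ, true_and, mem_image, mem_range, not_exists, not_and]
  constructor
  · intro h i hi e; exact h i (by omega) e.symm
  · intro h i hi e; exact h i (by omega) e.symm

theorem DP.card {v : ℕ → V} {d : ℕ} (h : DP G v d) :
    (extras v d).card + (d + 1) = Fintype.card V := by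
  unfold extras
  rw [card_sdiff_of_subset (subset_univ _), card_univ, card_image_of_injOn, card_range]
  · have : d + 1 ≤ Fintype.card V := by
      have h1 : ((range (d + 1)).image v).card = d + 1 := by
        rw [card_image_of_injOn, card_range]
        intro i hi j hj e
        simp only [coe_range, Set.mem_Iio] at hi hj
        exact h.inj (by omega) (by omega) e
      rw [← h1, ← card_univ]
      exact card_le_card (subset_univ _)
    omega
  · intro i hi j hj e
    simp only [coe_range, Set.mem_Iio] at hi hj
    exact h.inj (by omega) (by omega) e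

theorem main_bound {v : ℕ → V} {d c : ℕ} (h : DP G v d) (hc : c = d / 2) {q m : ℤ}
    (hp : Par (Fintype.card V) q d m)
    (hDR : ∀ x ∈ extras v d, Rt G v c x → G.dist x (v c) ≤ d - c)
    (hDL : ∀ x ∈ extras v d, ¬ Rt G v c x → G.dist x (v c) ≤ c) :
    ∃ α β : ℤ, 0 ≤ α ∧ 0 ≤ β ∧ α + β = m ∧
      3 * (∑ x, ∑ y, (G.dist x y : ℤ)) ≤
        G6 (Fintype.card V) q d c α + G6 (Fintype.card V) q d (d - c) β := by
  have hd3 : 3 ≤ d := by exact_mod_cast hp.d3
  have hc1 : 1 ≤ c := by omega
  have hcd : c < d := by omega
  classical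
  have hex := exists_parent h hc1 hcd
  let π : V → V := fun x => if hx : x = v c then v c else (hex x hx).choose
  have hπ : ∀ x (hx : x ≠ v c), G.Adj x (π x) ∧ G.dist x (v c) = G.dist (π x) (v c) + 1 ∧
      (∀ i, i < c → x = v i → (π x) = v (i + 1)) ∧
      (∀ i, c < i → i ≤ d → x = v i → (π x) = v (i - 1)) ∧
      ((∀ i ≤ d, x ≠ v i) → (Rt G v c x → Rt G v c (π x)) ∧ (¬ Rt G v c x → ¬ Rt G v c (π x))) := by
    intro x hx
    have : π x = (hex x hx).choose := by simp [π, hx]
    rw [this]
    exact (hex x hx).choose_spec
  have hRT : RT (v c) π (fun x => G.dist x (v c)) := by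
    constructor
    · simp
    · intro x hx; exact (hπ x hx).2.1
  set ℓ : V → ℕ := fun x => G.dist x (v c) with hℓ
  -- path vertices
  have hlr : ∀ i, i ≤ d - c → ℓ (v (c + i)) = i := by
    intro i hi
    simp only [hℓ]
    rw [h.hv' (by omega : c ≤ c + i) (by omega)]; omega
  have hll : ∀ i, i ≤ c → ℓ (v (c - i)) = i := by
    intro i hi
    simp only [hℓ]
    rw [h.hv (c - i) c (by omega) (by omega)]; omega
  have hRr : ∀ i, c < i → i ≤ d → Rt G v c (v i) := by
    intro i h1 h2
    unfold Rt
    rw [h.hv' (by omega : c + 1 ≤ i) h2, h.hv' (by omega : c ≤ i) h2]; omega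
  have hRl : ∀ i, i ≤ c → ¬ Rt G v c (v i) := by
    intro i h1
    unfold Rt
    rw [h.hv i (c + 1) (by omega) (by omega), h.hv i c (by omega) (by omega)]; omega
  have hXr : v c ∉ extras v d := fun e => (mem_extras.1 e) c (by omega) rfl
  -- closure properties
  have hclR : ∀ y, y ≠ v c → π y ≠ v c → Rt G v c (π y) → Rt G v c y := by
    intro y hy hπy hR
    by_cases hyX : ∀ i ≤ d, y ≠ v i
    · by_contra hn
      exact ((hπ y hy).2.2.2.2 hyX).2 hn hR
    · push Not at hyX
      obtain ⟨i, hid, rfl⟩ := hyX
      rcases lt_trichotomy i c with hic | hic | hic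
      · have e := (hπ _ hy).2.2.1 i hic rfl
        rw [e] at hR
        exact absurd hR (hRl (i + 1) (by omega))
      · exact absurd (by rw [hic]) hy
      · exact hRr i hic hid
  have hclL : ∀ y, y ≠ v c → π y ≠ v c → ¬ Rt G v c (π y) → ¬ Rt G v c y := by
    intro y hy hπy hR
    by_cases hyX : ∀ i ≤ d, y ≠ v i
    · intro hn
      exact hR (((hπ y hy).2.2.2.2 hyX).1 hn)
    · push Not at hyX
      obtain ⟨i, hid, rfl⟩ := hyX
      rcases lt_trichotomy i c with hic | hic | hic
      · exact hRl i hic.le
      · exact absurd (by rw [hic]) hy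
      · have e := (hπ _ hy).2.2.2.1 i hic hid rfl
        rw [e] at hR hπy
        have : c < i - 1 := by
          rcases Nat.lt_or_ge c (i - 1) with h1 | h1
          · exact h1
          · exfalso; apply hπy
            rw [show i - 1 = c by omega]
        exact absurd (hRr (i - 1) this (by omega)) hR
  have hXc : ∀ y, y ≠ v c → π y ∈ extras v d → y ∈ extras v d := by
    intro y hy hπy
    rw [mem_extras] at hπy ⊢
    intro i hid e
    subst e
    rcases lt_trichotomy i c with hic | hic | hic
    · exact hπy (i + 1) (by omega) ((hπ _ hy).2.2.1 i hic rfl)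
    · exact hy (by rw [hic])
    · exact hπy (i - 1) (by omega) ((hπ _ hy).2.2.2.1 i hic hid rfl)
  -- depth bounds
  have hdepR : ∀ x, Rt G v c x → ℓ x ≤ d - c := by
    intro x hx
    by_cases hxX : x ∈ extras v d
    · exact hDR x hxX hx
    · rw [mem_extras] at hxX
      push Not at hxX
      obtain ⟨i, hid, rfl⟩ := hxX
      rcases Nat.lt_or_ge c i with hic | hic
      · simp only [hℓ]
        rw [h.hv' (by omega : c ≤ i) hid]; omega
      · exact absurd hx (hRl i hic)
  have hdepL : ∀ x, ¬ Rt G v c x → ℓ x ≤ c := by
    intro x hx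
    by_cases hxX : x ∈ extras v d
    · exact hDL x hxX hx
    · rw [mem_extras] at hxX
      push Not at hxX
      obtain ⟨i, hid, rfl⟩ := hxX
      rcases Nat.lt_or_ge c i with hic | hic
      · exact absurd (hRr i hic hid) hx
      · simp only [hℓ]
        rw [h.hv i c hic (by omega)]; omega
  have hw₁ : Chn (v c) π ℓ (extras v d) (fun i => v (c + i)) (d - c) := by
    refine ⟨by omega, ?_, ?_, ?_, ?_, ?_, ?_⟩
    · intro i h1 h2 e
      have := h.inj (by omega) (by omega) e
      omega
    · intro i h1 h2; exact hlr i h2
    · intro i h1 h2 e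
      exact (mem_extras.1 e) (c + i) (by omega) rfl
    · intro i h1 h2
      have hne : v (c + (i + 1)) ≠ v c := by
        intro e
        have := h.inj (by omega) (by omega) e
        omega
      have := (hπ _ hne).2.2.2.1 (c + (i + 1)) (by omega) (by omega) rfl
      simpa using this
    · intro i h1 h2 y hy
      rw [mem_chd] at hy
      by_cases hyX : y ∈ extras v d
      · left; exact hyX
      · right
        rw [mem_extras] at hyX
        push Not at hyX
        obtain ⟨j, hjd, rfl⟩ := hyX
        rcases lt_trichotomy j c with hic | hic | hic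
        · have e := (hπ _ hy.1).2.2.1 j hic rfl
          rw [hy.2] at e
          have := h.inj (by omega) (by omega) e
          omega
        · exact absurd (by rw [hic]) hy.1
        · have e := (hπ _ hy.1).2.2.2.1 j hic hjd rfl
          rw [hy.2] at e
          have := h.inj (by omega) (by omega) e
          refine ⟨by omega, ?_⟩
          rw [show c + (i + 1) = j by omega]
    · intro i h1 h2 x hx
      rw [mem_desc] at hx
      apply hdepR
      exact desc_closed hRT hclR (hRr (c + i) (by omega) (by omega)) x hx
  have hw₂ : Chn (v c) π ℓ (extras v d) (fun i => v (c - i)) c := by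
    refine ⟨by omega, ?_, ?_, ?_, ?_, ?_, ?_⟩
    · intro i h1 h2 e
      have := h.inj (by omega) (by omega) e
      omega
    · intro i h1 h2; exact hll i h2
    · intro i h1 h2 e
      exact (mem_extras.1 e) (c - i) (by omega) rfl
    · intro i h1 h2
      have hne : v (c - (i + 1)) ≠ v c := by
        intro e
        have := h.inj (by omega) (by omega) e
        omega
      have := (hπ _ hne).2.2.1 (c - (i + 1)) (by omega) rfl
      rw [this]
      congr 1; omega
    · intro i h1 h2 y hy
      rw [mem_chd] at hy
      by_cases hyX : y ∈ extras v d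
      · left; exact hyX
      · right
        rw [mem_extras] at hyX
        push Not at hyX
        obtain ⟨j, hjd, rfl⟩ := hyX
        rcases lt_trichotomy j c with hic | hic | hic
        · have e := (hπ _ hy.1).2.2.1 j hic rfl
          rw [hy.2] at e
          have := h.inj (by omega) (by omega) e
          refine ⟨by omega, ?_⟩
          rw [show c - (i + 1) = j by omega]
        · exact absurd (by rw [hic]) hy.1
        · have e := (hπ _ hy.1).2.2.2.1 j hic hjd rfl
          rw [hy.2] at e
          have := h.inj (by omega) (by omega) e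
          omega
    · intro i h1 h2 x hx
      rw [mem_desc] at hx
      apply hdepL
      exact desc_closed hRT (Q := fun x => ¬ Rt G v c x) hclL (hRl (c - i) (by omega)) x hx
  obtain ⟨α, β, hα, hβ, hab, hle⟩ := tree_bound (q := q) (d := d) (m := m) hRT hp
    (extras v d) (by have := h.card; have := hp.hn; push_cast [← h.card] at this; linarith)
    hXr hXc hw₁ hw₂ (by omega) (by omega)
    (by
      have hne : v (c + 1) ≠ v c := by
        intro e
        have := h.inj (by omega) (by omega) e
        omega
      have := (hπ _ hne).2.2.2.1 (c + 1) (by omega) (by omega) rfl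
      simpa using this)
    (by
      have hne : v (c - 1) ≠ v c := by
        intro e
        have := h.inj (by omega) (by omega) e
        omega
      have := (hπ _ hne).2.2.1 (c - 1) (by omega) rfl
      rw [this]
      congr 1; omega)
    (by
      intro e
      have := h.inj (by omega) (by omega) e
      omega)
    (by
      intro y hy
      have hy' := mem_chd.1 hy
      by_cases hyX : y ∈ extras v d
      · right; right
        refine ⟨hyX, ?_⟩
        intro x hx
        rw [mem_desc] at hx
        apply hdepL
        refine desc_closed hRT (Q := fun x => ¬ Rt G v c x) hclL ?_ x hx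
        intro hR
        have h1 := ((hπ y hy'.1).2.2.2.2 (mem_extras.1 hyX)).1 hR
        rw [hy'.2] at h1
        exact hRl c (le_refl _) h1
      · rw [mem_extras] at hyX
        push Not at hyX
        obtain ⟨j, hjd, rfl⟩ := hyX
        rcases lt_trichotomy j c with hic | hic | hic
        · right; left
          have e := (hπ _ hy'.1).2.2.1 j hic rfl
          rw [hy'.2] at e
          have := h.inj (by omega) (by omega) e
          change v j = v (c - 1)
          congr 1; omega
        · exact absurd (by rw [hic]) hy'.1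
        · left
          have e := (hπ _ hy'.1).2.2.2.1 j hic hjd rfl
          rw [hy'.2] at e
          have := h.inj (by omega) (by omega) e
          change v j = v (c + 1)
          congr 1; omega)
  refine ⟨α, β, hα, hβ, hab, ?_⟩
  have h1 := sum_dist_le hRT h.hc (fun x hx => (hπ x hx).1)
  have h2 : (((d - c : ℕ) : ℤ)) = (d : ℤ) - c := by omega
  rw [h2] at hle
  linarith

end Pool.Agent.Wien566
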