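import Mathlib

/-!
# Polynomial inequalities for the merging of rooted brooms
-/

namespace Pool.Agent.Wien566

/-- six times the sum of `k (n - k)` over `1 ≤ k ≤ N` -/
def T6 (n N : ℤ) : ℤ := 3 * n * N * (N + 1) - N * (N + 1) * (2 * N + 1)

/-- six times the value of a rooted broom with depth `D` and `a` additional leaves -/
def B6 (n D a : ℤ) : ℤ := 6 * (a + 1) * (n - 1) + T6 n (D + a) - T6 n (a + 1)

/-- penalty -/
def SS (q x : ℤ) : ℤ := if x ≤ 2 * q - 1 then 0 else (x - 2 * q + 1) * (x - 2 * q + 2)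

def Q6 (n H ν a : ℤ) : ℤ :=
  6 * (n - 1) - 6 * ν * (H + 2 * a + 2) + 3 * (n - 2 * ν) * (H - 2) + (H - 2) * (2 * H - 3)

theorem Q6_eq (n H ν a : ℤ) :
    Q6 n H ν a = 6 * (n - 1 - 2 * ν * (a + 2)) + (H - 2) * (3 * n - 12 * ν + 2 * H - 3) := by
  unfold Q6; ring

theorem B6_diff_a (n D ν a : ℤ) :
    B6 n D (a + ν) - B6 n D a - B6 n D (ν - D) = (D - 1) * Q6 n D ν a := by
  unfold B6 T6 Q6; ring

theorem B6_diff_b (n D ν a : ℤ) :
    B6 n D (a + ν) - B6 n D a - T6 n ν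
      = 6 * ν * (D - ν) * (n - ν - 2 * a - 1 - D - ν) + (ν - 1) * Q6 n ν ν a := by
  unfold B6 T6 Q6; ring

theorem int_prod_aux (x q : ℤ) : x * (2 * q + 1 - x) ≤ q * (q + 1) := by
  rcases le_or_gt x q with h | h
  · nlinarith
  · have : q + 1 ≤ x := h
    nlinarith

theorem B6_zero (n D : ℤ) : B6 n D 0 = T6 n D := by
  unfold B6 T6; ring

theorem T6_succ (n N : ℤ) : T6 n (N + 1) = T6 n N + 6 * ((N + 1) * (n - (N + 1))) := by
  unfold T6; ring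

theorem B6_succ (n D a : ℤ) : B6 n (D + 1) a = B6 n D a + 6 * ((D + 1 + a) * (n - (D + 1 + a))) := by
  unfold B6 T6; ring

/-- small excess -/
theorem KL_small (q d m n H ν a : ℤ) (hq : 1 ≤ q) (hd : 2 * q ^ 2 + 1 ≤ d) (hn : n = d + 1 + m)
    (hH : 2 ≤ H) (hHν : H ≤ ν) (ha : 0 ≤ a) (hm : a + ν ≤ m) (he : a + ν ≤ 2 * q - 1) :
    0 ≤ Q6 n H ν a := by
  rw [Q6_eq]
  have h1 : 2 * ν * (a + 2) ≤ n - 1 := by
    have h2 := int_prod_aux ν q
    have h3 : 0 ≤ (ν - 1) * (2 * q - 1 - (a + ν)) := mul_nonneg (by linarith) (by linarith)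
    nlinarith
  have h4 : 0 ≤ 3 * n - 12 * ν + 2 * H - 3 := by
    nlinarith [sq_nonneg (2 * q - 3)]
  have h5 : 0 ≤ (H - 2) * (3 * n - 12 * ν + 2 * H - 3) := mul_nonneg (by linarith) h4
  linarith

end Pool.Agent.Wien566
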