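import Pool.Agent.Wien566.Poly

/-!
# Polynomial inequalities for the merging of rooted brooms, continued
-/

namespace Pool.Agent.Wien566

theorem SS_of_le {q x : ℤ} (h : x ≤ 2 * q - 1) : SS q x = 0 := by
  unfold SS; rw [if_pos h]

theorem SS_of_gt {q x : ℤ} (h : 2 * q - 1 < x) : SS q x = (x - 2 * q + 1) * (x - 2 * q + 2) := by
  unfold SS; rw [if_neg (not_le.mpr h)]

theorem SS_nonneg (q x : ℤ) : 0 ≤ SS q x := by
  unfold SS
  split_ifs with h
  · exact le_refl _
  · push Not at h
    exact mul_nonneg (by linarith) (by linarith)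

theorem SS_mono {q x y : ℤ} (h : x ≤ y) : SS q x ≤ SS q y := by
  rcases le_or_gt x (2 * q - 1) with hx | hx
  · rw [SS_of_le hx]; exact SS_nonneg q y
  · rw [SS_of_gt hx, SS_of_gt (lt_of_lt_of_le hx h)]
    exact mul_le_mul (by linarith) (by linarith) (by linarith) (by linarith)

/-- key inequality for `q ≥ 5`, large excess -/
theorem KL_large (q d m n H ν a : ℤ) (hq : 5 ≤ q) (hd : 2 * q ^ 2 + 1 ≤ d) (hn : n = d + 1 + m)
    (hmq : m ≤ 4 * q - 3)
    (hH : 2 ≤ H) (hHν : H ≤ ν) (ha : 0 ≤ a) (hm : a + ν ≤ m) (he : 2 * q ≤ a + ν) :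
    0 ≤ (H - 1) * Q6 n H ν a + 6 * (d - 2) * (SS q (a + ν) - SS q a - SS q (ν - H)) := by
  have hb : 0 ≤ 3 * n - 12 * ν + 2 * H - 3 := by
    have : 0 ≤ (q - 1) * (q - 5) := mul_nonneg (by linarith) (by linarith)
    nlinarith
  have hb2 : 0 ≤ (H - 1) * ((H - 2) * (3 * n - 12 * ν + 2 * H - 3)) :=
    mul_nonneg (by linarith) (mul_nonneg (by linarith) hb)
  -- it suffices to bound the first part
  suffices h : (H - 1) * (2 * ν * (a + 2) - (n - 1)) ≤
      (d - 2) * (SS q (a + ν) - SS q a - SS q (ν - H)) by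
    rw [Q6_eq]; nlinarith
  have hd2 : 2 * q ^ 2 - 1 ≤ d - 2 := by linarith
  have hqq : 5 * q ≤ q ^ 2 := by nlinarith
  have hX : 2 * ν * (a + 2) - (n - 1) ≤ 2 * ν * (a + 2) - (2 * q ^ 2 + 1 + (a + ν)) := by linarith
  have h1 : (H - 1) * (2 * ν * (a + 2) - (n - 1)) ≤
      (H - 1) * (2 * ν * (a + 2) - (2 * q ^ 2 + 1 + (a + ν))) :=
    mul_le_mul_of_nonneg_left hX (by linarith)
  rcases le_or_gt a (2 * q - 1) with ha2 | ha2
  · rcases le_or_gt (ν - H) (2 * q - 1) with hv | hv
    · -- case (i)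
      rw [SS_of_le ha2, SS_of_le hv, SS_of_gt (by linarith : 2 * q - 1 < a + ν)]
      obtain ⟨s, hs⟩ : ∃ s, s = a + ν - 2 * q + 1 := ⟨_, rfl⟩
      have hs1 : 1 ≤ s := by linarith
      have hs2 : s ≤ 2 * q - 2 := by linarith
      have ea : a = 2 * q - 1 + s - ν := by linarith
      set X := 2 * ν * (a + 2) - (2 * q ^ 2 + 1 + (a + ν)) with hXdef
      have hgoal : (H - 1) * X ≤ (2 * q ^ 2 - 1) * (s * (s + 1)) := by
        rcases le_or_gt X 0 with hX0 | hX0
        · have : (H - 1) * X ≤ 0 := mul_nonpos_of_nonneg_of_nonpos (by linarith) hX0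
          have h2 : 0 ≤ (2 * q ^ 2 - 1) * (s * (s + 1)) := by
            apply mul_nonneg (by nlinarith) (mul_nonneg (by linarith) (by linarith))
          linarith
        · have h3 : (H - 1) * X ≤ (ν - 1) * X := mul_le_mul_of_nonneg_right (by linarith) hX0.le
          have hXe : X = 2 * ν * (2 * q + 1 + s - ν) - 2 * q ^ 2 - 2 * q - s := by
            rw [hXdef, ea]; ring
          rcases eq_or_lt_of_le hs1 with hs | hs
          · -- s = 1
            subst hs
            obtain ⟨t, ht⟩ : ∃ t, t = ν - q - 1 := ⟨_, rfl⟩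
            have hν : ν = q + 1 + t := by linarith
            have hXt : X = 2 * q + 1 - 2 * t ^ 2 := by rw [hXe, hν]; ring
            have h4 : (ν - 1) * X ≤ q * (2 * q + 1) := by
              rw [hXt, hν]
              rcases le_or_gt t 0 with ht0 | ht0
              · have : 0 ≤ 2 * q + 1 - 2 * t ^ 2 := by rw [← hXt]; exact hX0.le
                have h5 : (q + 1 + t - 1) * (2 * q + 1 - 2 * t ^ 2) ≤ q * (2 * q + 1 - 2 * t ^ 2) :=
                  mul_le_mul_of_nonneg_right (by linarith) this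
                have h6 : 0 ≤ q * (2 * t ^ 2) := mul_nonneg (by linarith) (by positivity)
                nlinarith
              · have ht1 : 1 ≤ t := ht0
                have h5 : t ≤ t ^ 2 := by nlinarith
                have h6 : (q + 1 + t - 1) * (2 * q + 1 - 2 * t ^ 2) ≤ (q + t) * (2 * q + 1 - 2 * t) := by
                  have : (q + t) * (2 * q + 1 - 2 * t ^ 2) ≤ (q + t) * (2 * q + 1 - 2 * t) :=
                    mul_le_mul_of_nonneg_left (by linarith) (by linarith)
                  linarith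
                nlinarith
            nlinarith
          · -- s ≥ 2
            have hs2' : 2 ≤ s := hs
            have h4 : 2 * X ≤ 1 + 4 * q * s + s ^ 2 := by
              rw [hXe]; nlinarith [sq_nonneg (2 * ν - (2 * q + 1 + s))]
            have h5 : (ν - 1) * (2 * X) ≤ (2 * q - 2 + s) * (1 + 4 * q * s + s ^ 2) := by
              apply mul_le_mul (by linarith) h4 (by linarith) (by linarith)
            have h6 : (2 * q - 2 + s) * (1 + 4 * q * s + s ^ 2) ≤ 2 * ((2 * q ^ 2 - 1) * (s * (s + 1))) := by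
              have e1 : 2 * ((2 * q ^ 2 - 1) * (s * (s + 1))) - (2 * q - 2 + s) * (1 + 4 * q * s + s ^ 2)
                = (4 * q ^ 2 - 6 * q) * s ^ 2 - (4 * q ^ 2 - 8 * q + 3) * s - s ^ 3 - (2 * q - 2) := by
                ring
              have e2 : s ^ 3 ≤ (2 * q - 2) * s ^ 2 := by
                have : 0 ≤ (2 * q - 2 - s) * s ^ 2 := mul_nonneg (by linarith) (by positivity)
                nlinarith
              have e3 : 0 ≤ (4 * q ^ 2 - 8 * q + 2) * (s ^ 2 - 2 * s) := by
                apply mul_nonneg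
                · nlinarith
                · nlinarith
              have e4 : 0 ≤ (4 * q ^ 2 - 8 * q + 1) * (s - 2) := by
                apply mul_nonneg
                · nlinarith
                · linarith
              nlinarith
            linarith
      have h7 : (2 * q ^ 2 - 1) * (s * (s + 1)) ≤ (d - 2) * (s * (s + 1)) :=
        mul_le_mul_of_nonneg_right hd2 (mul_nonneg (by linarith) (by linarith))
      have h8 : (d - 2) * ((a + ν - 2 * q + 1) * (a + ν - 2 * q + 2) - 0 - 0) = (d - 2) * (s * (s + 1)) := by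
        rw [hs]; ring
      linarith
    · -- case (iii)
      rw [SS_of_le ha2, SS_of_gt hv, SS_of_gt (by linarith : 2 * q - 1 < a + ν)]
      have e1 : (a + ν - 2 * q + 1) * (a + ν - 2 * q + 2) - 0 - (ν - H - 2 * q + 1) * (ν - H - 2 * q + 2)
        = (a + H) * (2 * (ν - H - 2 * q + 1) + a + H + 1) := by ring
      rw [e1]
      have hN : 1 ≤ ν - H - 2 * q + 1 := by linarith
      have h2 : (H - 1) * (a + 2) ≤ (a + H) * (2 * (ν - H - 2 * q + 1) + a + H + 1) :=
        mul_le_mul (by linarith) (by linarith) (by linarith) (by linarith)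
      have h3 : 0 ≤ (H - 1) * (a + 2) := mul_nonneg (by linarith) (by linarith)
      have h4 : (2 * ν) * ((H - 1) * (a + 2)) ≤ (d - 2) * ((H - 1) * (a + 2)) :=
        mul_le_mul_of_nonneg_right (by linarith) h3
      have h5 : (d - 2) * ((H - 1) * (a + 2)) ≤
          (d - 2) * ((a + H) * (2 * (ν - H - 2 * q + 1) + a + H + 1)) :=
        mul_le_mul_of_nonneg_left h2 (by linarith)
      have h6 : (H - 1) * (2 * ν * (a + 2) - (2 * q ^ 2 + 1 + (a + ν))) ≤ (2 * ν) * ((H - 1) * (a + 2)) := by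
        have : 0 ≤ (H - 1) * (2 * q ^ 2 + 1 + (a + ν)) := mul_nonneg (by linarith) (by nlinarith)
        nlinarith
      linarith
  · -- case (ii)
    have hv : ν - H ≤ 2 * q - 1 := by linarith
    rw [SS_of_le hv, SS_of_gt ha2, SS_of_gt (by linarith : 2 * q - 1 < a + ν)]
    have e1 : (a + ν - 2 * q + 1) * (a + ν - 2 * q + 2) - (a - 2 * q + 1) * (a - 2 * q + 2) - 0
        = ν * (2 * (a - 2 * q + 1) + ν + 1) := by ring
    rw [e1]
    have h2 : (H - 1) * ν ≤ ν * (2 * (a - 2 * q + 1) + ν + 1) := by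
      have : (H - 1) * ν ≤ (2 * (a - 2 * q + 1) + ν + 1) * ν :=
        mul_le_mul_of_nonneg_right (by linarith) (by linarith)
      linarith [mul_comm (2 * (a - 2 * q + 1) + ν + 1) ν]
    have h3 : 0 ≤ (H - 1) * ν := mul_nonneg (by linarith) (by linarith)
    have h4 : (2 * (a + 2)) * ((H - 1) * ν) ≤ (d - 2) * ((H - 1) * ν) :=
      mul_le_mul_of_nonneg_right (by linarith) h3
    have h5 : (d - 2) * ((H - 1) * ν) ≤ (d - 2) * (ν * (2 * (a - 2 * q + 1) + ν + 1)) :=
      mul_le_mul_of_nonneg_left h2 (by linarith)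
    have h6 : (H - 1) * (2 * ν * (a + 2) - (2 * q ^ 2 + 1 + (a + ν))) ≤ (2 * (a + 2)) * ((H - 1) * ν) := by
      have : 0 ≤ (H - 1) * (2 * q ^ 2 + 1 + (a + ν)) := mul_nonneg (by linarith) (by nlinarith)
      nlinarith
    linarith

end Pool.Agent.Wien566
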