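import Pool.Agent.Wien566.Poly2

/-!
# Merging inequalities
-/

namespace Pool.Agent.Wien566

theorem SS_add {q a b : ℤ} (ha : 0 ≤ a) (hb : 0 ≤ b) (h : a + b ≤ 4 * q - 3) :
    SS q a + SS q b ≤ SS q (a + b) := by
  rcases le_or_gt a (2 * q - 1) with h1 | h1
  · rw [SS_of_le h1]
    have := SS_mono (q := q) (show b ≤ a + b by linarith)
    linarith
  · have h2 : b ≤ 2 * q - 1 := by linarith
    rw [SS_of_le h2]
    have := SS_mono (q := q) (show a ≤ a + b by linarith)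
    linarith

/-- the finite table -/
def chk (q ν H a : ℕ) : Bool :=
  !(decide (2 ≤ q) && decide (2 ≤ H) && decide (H ≤ ν) && decide (2 * q ≤ a + ν) &&
      decide (a + ν + 3 ≤ 4 * q)) ||
    decide ((0 : ℤ) ≤ ((H : ℤ) - 1) * Q6 (2 * (q : ℤ) ^ 2 + 2 + ((a : ℤ) + (ν : ℤ))) H ν a +
      6 * (2 * (q : ℤ) ^ 2 + 1 - 2) * (SS q ((a : ℤ) + ν) - SS q a - SS q ((ν : ℤ) - H)))

theorem chk_all : ∀ q : Fin 5, ∀ ν : Fin 14, ∀ H : Fin 14, ∀ a : Fin 14,
    chk q ν H a = true := by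
  decide +kernel

theorem fin_check (q ν H a : ℕ) (h1 : q < 5) (h2 : ν < 14) (h3 : H < 14) (h4 : a < 14)
    (h : 2 ≤ q ∧ 2 ≤ H ∧ H ≤ ν ∧ 2 * q ≤ a + ν ∧ a + ν + 3 ≤ 4 * q) :
    (0 : ℤ) ≤ ((H : ℤ) - 1 : ℤ) * Q6 (2 * (q : ℤ) ^ 2 + 2 + ((a : ℤ) + (ν : ℤ))) H ν a +
      6 * (2 * (q : ℤ) ^ 2 + 1 - 2) * (SS q ((a : ℤ) + ν) - SS q a - SS q ((ν : ℤ) - H)) := by
  have := chk_all ⟨q, h1⟩ ⟨ν, h2⟩ ⟨H, h3⟩ ⟨a, h4⟩
  simp only [chk, h, decide_true, Bool.and_self, Bool.not_true, Bool.false_or,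
    decide_eq_true_eq] at this
  exact this

theorem KL_fin (q d m n H ν a : ℤ) (hq : 2 ≤ q) (hq4 : q ≤ 4) (hd : 2 * q ^ 2 + 1 ≤ d)
    (hn : n = d + 1 + m) (hmq : m ≤ 4 * q - 3)
    (hH : 2 ≤ H) (hHν : H ≤ ν) (ha : 0 ≤ a) (hm : a + ν ≤ m) (he : 2 * q ≤ a + ν) :
    0 ≤ (H - 1) * Q6 n H ν a + 6 * (d - 2) * (SS q (a + ν) - SS q a - SS q (ν - H)) := by
  have hS : 0 ≤ SS q (a + ν) - SS q a - SS q (ν - H) := by
    have h1 := SS_add (q := q) (a := a) (b := ν - H) ha (by linarith) (by linarith)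
    have h2 := SS_mono (q := q) (show a + (ν - H) ≤ a + ν by linarith)
    linarith
  obtain ⟨q', rfl⟩ := Int.eq_ofNat_of_zero_le (show 0 ≤ q by linarith)
  obtain ⟨ν', rfl⟩ := Int.eq_ofNat_of_zero_le (show 0 ≤ ν by linarith)
  obtain ⟨H', rfl⟩ := Int.eq_ofNat_of_zero_le (show 0 ≤ H by linarith)
  obtain ⟨a', rfl⟩ := Int.eq_ofNat_of_zero_le ha
  have hfin := fin_check q' ν' H' a' (by omega) (by omega) (by omega) (by omega) (by omega)
  have e1 : ((H' : ℤ) - 1) * Q6 n H' ν' a' - ((H' : ℤ) - 1) * Q6 (2 * (q' : ℤ) ^ 2 + 2 + ((a' : ℤ) + (ν' : ℤ))) H' ν' a'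
      = ((H' : ℤ) - 1) * (3 * H') * (n - (2 * (q' : ℤ) ^ 2 + 2 + ((a' : ℤ) + (ν' : ℤ)))) := by
    unfold Q6; ring
  have e2 : 0 ≤ ((H' : ℤ) - 1) * (3 * H') * (n - (2 * (q' : ℤ) ^ 2 + 2 + ((a' : ℤ) + (ν' : ℤ)))) := by
    apply mul_nonneg (mul_nonneg (by linarith) (by linarith)) (by linarith)
  have e3 : 6 * (2 * (q' : ℤ) ^ 2 + 1 - 2) * (SS q' ((a' : ℤ) + ν') - SS q' a' - SS q' ((ν' : ℤ) - H'))
      ≤ 6 * (d - 2) * (SS q' ((a' : ℤ) + ν') - SS q' a' - SS q' ((ν' : ℤ) - H')) :=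
    mul_le_mul_of_nonneg_right (by linarith) hS
  linarith

/-- the key inequality -/
theorem KL (q d m n H ν a : ℤ) (hq : 1 ≤ q) (hd : 2 * q ^ 2 + 1 ≤ d)
    (hn : n = d + 1 + m) (hmq : m ≤ 4 * q - 3)
    (hH : 1 ≤ H) (hHν : H ≤ ν) (ha : 0 ≤ a) (hm : a + ν ≤ m) :
    0 ≤ (H - 1) * Q6 n H ν a + 6 * (d - 2) * (SS q (a + ν) - SS q a - SS q (ν - H)) := by
  have hS : 0 ≤ SS q (a + ν) - SS q a - SS q (ν - H) := by
    have h1 := SS_add (q := q) (a := a) (b := ν - H) ha (by linarith) (by linarith)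
    have h2 := SS_mono (q := q) (show a + (ν - H) ≤ a + ν by linarith)
    linarith
  have hd2 : 0 ≤ 6 * (d - 2) := by nlinarith
  rcases eq_or_lt_of_le hH with h | h
  · subst h
    have := mul_nonneg hd2 hS
    simpa using this
  · have hH2 : 2 ≤ H := h
    rcases le_or_gt (a + ν) (2 * q - 1) with he | he
    · have h1 := KL_small q d m n H ν a hq hd hn hH2 hHν ha hm he
      have h2 : 0 ≤ (H - 1) * Q6 n H ν a := mul_nonneg (by linarith) h1
      have := mul_nonneg hd2 hS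
      linarith
    · have he' : 2 * q ≤ a + ν := by linarith
      have hq2 : 2 ≤ q := by linarith
      rcases le_or_gt q 4 with hq4 | hq4
      · exact KL_fin q d m n H ν a hq2 hq4 hd hn hmq hH2 hHν ha hm he'
      · exact KL_large q d m n H ν a (by linarith) hd hn hmq hH2 hHν ha hm he'

/-- broom function with penalty -/
def G6 (n q d D a : ℤ) : ℤ := B6 n D a + 6 * (d - 2) * SS q a

/-- majorant for the subtrees -/
def F6 (n q d D σ : ℤ) : ℤ := if σ ≤ D then T6 n σ else G6 n q d D (σ - D)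

/-- the standing hypotheses on the parameters -/
structure Par (n q d m : ℤ) : Prop where
  hq : 1 ≤ q
  hd : 2 * q ^ 2 + 1 ≤ d
  hn : n = d + 1 + m
  hmq : m ≤ 4 * q - 3
  hm0 : 0 ≤ m

theorem Par.d3 {n q d m : ℤ} (h : Par n q d m) : 3 ≤ d := by nlinarith [h.hq, h.hd]

theorem Par.md {n q d m : ℤ} (h : Par n q d m) : m + 1 ≤ d := by
  nlinarith [h.hq, h.hd, h.hmq, sq_nonneg (q - 1)]

theorem F6_of_le {n q d D σ : ℤ} (h : σ ≤ D) : F6 n q d D σ = T6 n σ := by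
  unfold F6; rw [if_pos h]

theorem F6_of_ge {n q d m : ℤ} (hp : Par n q d m) {D σ : ℤ} (h : D ≤ σ) :
    F6 n q d D σ = G6 n q d D (σ - D) := by
  rcases eq_or_lt_of_le h with h1 | h1
  · subst h1
    rw [F6_of_le (le_refl _), G6, sub_self, B6_zero, SS_of_le (by linarith [hp.hq])]; ring
  · unfold F6; rw [if_neg (not_le.mpr h1)]

theorem T6_zero (n : ℤ) : T6 n 0 = 0 := by unfold T6; ring

theorem F6_zero {n q d D : ℤ} (h : 0 ≤ D) : F6 n q d D 0 = 0 := by
  rw [F6_of_le h, T6_zero]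

theorem case1 {n q d m : ℤ} (hp : Par n q d m) {D a ν : ℤ} (hD : 1 ≤ D) (hD2 : 2 * D ≤ d + 1)
    (ha : 0 ≤ a) (hν : 0 ≤ ν) (hm : a + ν ≤ m) :
    G6 n q d D a + F6 n q d D ν ≤ G6 n q d D (a + ν) := by
  rcases eq_or_lt_of_le hν with h0 | h0
  · subst h0
    rw [F6_zero (by linarith)]; simp
  have hν1 : 1 ≤ ν := h0
  rcases le_or_gt D ν with h1 | h1
  · rw [F6_of_ge hp h1]
    unfold G6
    have h2 := B6_diff_a n D ν a
    have h3 := KL q d m n D ν a hp.hq hp.hd hp.hn hp.hmq hD h1 ha hm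
    nlinarith
  · rw [F6_of_le h1.le]
    unfold G6
    have h2 := B6_diff_b n D ν a
    have h3 := KL q d m n ν ν a hp.hq hp.hd hp.hn hp.hmq hν1 (le_refl _) ha hm
    rw [sub_self, SS_of_le (show (0 : ℤ) ≤ 2 * q - 1 by linarith [hp.hq])] at h3
    rcases le_or_gt 0 (n - ν - 2 * a - 1 - D - ν) with h4 | h4
    · have h5 : 0 ≤ 6 * ν * (D - ν) * (n - ν - 2 * a - 1 - D - ν) :=
        mul_nonneg (mul_nonneg (by linarith) (by linarith)) h4
      nlinarith
    · -- exceptional parameters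
      have hq := hp.hq
      have hd := hp.hd
      have hn := hp.hn
      have hmq := hp.hmq
      have h5 : d + 1 ≤ 2 * m := by linarith
      have h6 : (q - 2) ^ 2 ≤ 0 := by nlinarith
      have h7 : q = 2 := by
        have := pow_eq_zero_iff (two_ne_zero) |>.mp (le_antisymm h6 (sq_nonneg (q - 2)))
        linarith
      subst h7
      have hd9 : d = 9 := by linarith
      subst hd9
      have hm5 : m = 5 := by linarith
      subst hm5
      have he : a = 5 - ν := by linarith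
      have hD5 : D = 5 := by linarith
      subst he hD5 hn
      have h8 : ν ≤ 4 := by linarith
      clear h2 h3 h4 h5 h6 hp hd hmq hm ha hD hD2 h0 hν h1 hq
      interval_cases ν <;> simp [B6, T6, SS]

theorem case2 {n q d m : ℤ} (hp : Par n q d m) {D s t : ℤ} (hD : 1 ≤ D)
    (hs : 0 ≤ s) (ht : 0 ≤ t) (hsD : s < D) (htD : t < D) (hm : s + t ≤ m) :
    T6 n s + T6 n t ≤ F6 n q d D (s + t) := by
  have hmd := hp.md
  have hn := hp.hn
  have hd3 := hp.d3
  have key : T6 n (s + t) - T6 n s - T6 n t = 6 * (s * t) * (n - (s + t) - 1) := by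
    unfold T6; ring
  have hst : 0 ≤ s * t := mul_nonneg hs ht
  rcases le_or_gt (s + t) D with h1 | h1
  · rw [F6_of_le h1]
    have : 0 ≤ 6 * (s * t) * (n - (s + t) - 1) := mul_nonneg (by linarith) (by linarith)
    linarith
  · rw [F6_of_ge hp h1.le]
    unfold G6
    have hSS : 0 ≤ 6 * (d - 2) * SS q (s + t - D) := mul_nonneg (by linarith) (SS_nonneg _ _)
    obtain ⟨k, hk⟩ : ∃ k, k = s + t - D + 1 := ⟨_, rfl⟩
    have hk2 : 2 ≤ k := by linarith
    rcases eq_or_lt_of_le hs with hs0 | hs0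
    · exfalso; linarith
    rcases eq_or_lt_of_le ht with ht0 | ht0
    · exfalso; linarith
    -- if `s = D` or `t = D` then `k - 1 ≤ min s t`
    have hks : k ≤ s := by linarith
    have hkt : k ≤ t := by linarith
    have hB : B6 n D (s + t - D) = T6 n (s + t) + 6 * k * (n - 1) - T6 n k := by
      unfold B6; rw [hk]; ring_nf
    have hTk : T6 n k - 6 * k * (n - 1) = 3 * n * k * (k - 1) + k * (5 - 2 * k ^ 2 - 3 * k) := by
      unfold T6; ring
    have h2 : k * (5 - 2 * k ^ 2 - 3 * k) ≤ 0 := by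
      apply mul_nonpos_of_nonneg_of_nonpos (by linarith)
      nlinarith
    have h3 : k * k ≤ s * t := mul_le_mul hks hkt (by linarith) hs
    have h4 : n - 1 ≤ 2 * (n - (s + t) - 1) := by linarith
    have h5 : (k * k) * (n - 1) ≤ (s * t) * (2 * (n - (s + t) - 1)) :=
      mul_le_mul h3 h4 (by linarith) hst
    have h6 : n * (k * (k - 1)) ≤ (k * k) * (n - 1) := by
      have : 0 ≤ k * (n - k) := mul_nonneg (by linarith) (by linarith)
      nlinarith
    nlinarith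

theorem F6_add {n q d m : ℤ} (hp : Par n q d m) {D s t : ℤ} (hD : 1 ≤ D) (hD2 : 2 * D ≤ d + 1)
    (hs : 0 ≤ s) (ht : 0 ≤ t) (hm : s + t ≤ m) :
    F6 n q d D s + F6 n q d D t ≤ F6 n q d D (s + t) := by
  rcases le_or_gt D s with h1 | h1
  · rw [F6_of_ge hp h1, F6_of_ge hp (by linarith : D ≤ s + t)]
    have := case1 hp (a := s - D) (ν := t) hD hD2 (by linarith) ht (by linarith)
    have e : s - D + t = s + t - D := by ring
    rw [e] at this
    exact this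
  · rcases le_or_gt D t with h2 | h2
    · rw [F6_of_ge hp h2, F6_of_ge hp (by linarith : D ≤ s + t)]
      have := case1 hp (a := t - D) (ν := s) hD hD2 (by linarith) hs (by linarith)
      have e : t - D + s = s + t - D := by ring
      rw [e] at this
      linarith
    · rw [F6_of_le h1.le, F6_of_le h2.le]
      exact case2 hp hD hs ht h1 h2 hm

open Finset in
theorem F6_sum {n q d m : ℤ} (hp : Par n q d m) {D : ℤ} (hD : 1 ≤ D) (hD2 : 2 * D ≤ d + 1)
    {ι : Type*} [DecidableEq ι] (C : Finset ι) (s : ι → ℤ) (hs : ∀ y ∈ C, 0 ≤ s y)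
    (hm : ∑ y ∈ C, s y ≤ m) :
    ∑ y ∈ C, F6 n q d D (s y) ≤ F6 n q d D (∑ y ∈ C, s y) := by
  induction C using Finset.induction_on with
  | empty => simp [F6_zero (show 0 ≤ D by linarith)]
  | insert y C hy ih =>
    rw [sum_insert hy, sum_insert hy]
    rw [sum_insert hy] at hm
    have h1 : 0 ≤ s y := hs y (mem_insert_self y C)
    have h2 : 0 ≤ ∑ y ∈ C, s y := sum_nonneg fun z hz => hs z (mem_insert_of_mem hz)
    have h3 := ih (fun z hz => hs z (mem_insert_of_mem hz)) (by linarith)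
    have h4 := F6_add hp hD hD2 h1 h2 hm
    linarith

open Finset in
theorem G6_sum {n q d m : ℤ} (hp : Par n q d m) {D : ℤ} (hD : 1 ≤ D) (hD2 : 2 * D ≤ d + 1)
    {ι : Type*} [DecidableEq ι] (C : Finset ι) (s : ι → ℤ) (hs : ∀ y ∈ C, 0 ≤ s y) {a : ℤ}
    (ha : 0 ≤ a) (hm : a + ∑ y ∈ C, s y ≤ m) :
    G6 n q d D a + ∑ y ∈ C, F6 n q d D (s y) ≤ G6 n q d D (a + ∑ y ∈ C, s y) := by
  have h2 : 0 ≤ ∑ y ∈ C, s y := sum_nonneg hs
  have h3 := F6_sum hp hD hD2 C s hs (by linarith)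
  have h4 := case1 hp hD hD2 ha h2 hm
  linarith

/-- adding a new root -/
theorem F6_root {n q d m : ℤ} (hp : Par n q d m) {D σ : ℤ} (hD : 0 ≤ D) :
    F6 n q d (D + 1) (σ + 1) = 6 * ((σ + 1) * (n - (σ + 1))) + F6 n q d D σ := by
  rcases le_or_gt σ D with h1 | h1
  · rw [F6_of_le h1, F6_of_le (by linarith : σ + 1 ≤ D + 1), T6_succ]; ring
  · rw [F6_of_ge hp h1.le, F6_of_ge hp (by linarith : D + 1 ≤ σ + 1)]
    have e : σ + 1 - (D + 1) = σ - D := by ring
    rw [e]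
    unfold G6
    rw [B6_succ]
    have e2 : D + 1 + (σ - D) = σ + 1 := by ring
    rw [e2]; ring

theorem G6_root {n q d D a : ℤ} :
    G6 n q d (D + 1) a = 6 * ((D + 1 + a) * (n - (D + 1 + a))) + G6 n q d D a := by
  unfold G6; rw [B6_succ]; ring

theorem G6_zero_zero {n q d m : ℤ} (hp : Par n q d m) : G6 n q d 0 0 = 0 := by
  unfold G6; rw [B6_zero, T6_zero, SS_of_le (by linarith [hp.hq])]; ring

/-- value of a double broom -/
theorem broom_value (d c α β : ℤ) :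
    B6 (d + 1 + (α + β)) c α + B6 (d + 1 + (α + β)) (d - c) β =
      d * (d + 1) * (d + 2) + 3 * (α + β) * (d * (d + 1) + 4) + 6 * (α * β) * d
        + 6 * α * (α - 1) + 6 * β * (β - 1) := by
  unfold B6 T6; ring

theorem prod_bound {q m α β α' β' : ℤ} (hmq : m ≤ 4 * q - 3) (hα : 0 ≤ α) (hβ : 0 ≤ β)
    (h : α + β = m) (h' : α' + β' = m) (h1 : α' ≤ β') (h2 : β' ≤ α' + 1) :
    α * β + SS q α + SS q β ≤ α' * β' := by
  have hab : m ^ 2 - 1 ≤ 4 * (α' * β') := by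
    have e : 4 * (α' * β') = m ^ 2 - (β' - α') ^ 2 := by rw [← h']; ring
    have : (β' - α') ^ 2 ≤ 1 := by nlinarith
    linarith
  rcases le_or_gt α (2 * q - 1) with ha | ha
  · rcases le_or_gt β (2 * q - 1) with hb | hb
    · rw [SS_of_le ha, SS_of_le hb]
      have : 4 * (α * β) ≤ m ^ 2 := by rw [← h]; nlinarith [sq_nonneg (α - β)]
      generalize α * β = x at *
      generalize α' * β' = y at *
      omega
    · rw [SS_of_le ha, SS_of_gt hb]
      have e : 4 * (α * β) = m ^ 2 - (β - α) ^ 2 := by rw [← h]; ring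
      have h3 : 2 * (β - 2 * q + 1) + 1 ≤ β - α := by linarith
      have h4 : (2 * (β - 2 * q + 1) + 1) ^ 2 ≤ (β - α) ^ 2 :=
        pow_le_pow_left₀ (by linarith) h3 2
      nlinarith
  · have hb : β ≤ 2 * q - 1 := by linarith
    rw [SS_of_gt ha, SS_of_le hb]
    have e : 4 * (α * β) = m ^ 2 - (α - β) ^ 2 := by rw [← h]; ring
    have h3 : 2 * (α - 2 * q + 1) + 1 ≤ α - β := by linarith
    have h4 : (2 * (α - 2 * q + 1) + 1) ^ 2 ≤ (α - β) ^ 2 :=
      pow_le_pow_left₀ (by linarith) h3 2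
    nlinarith

theorem final_bound {n q d m : ℤ} (hp : Par n q d m) {c c' α β α' β' : ℤ} (hα : 0 ≤ α)
    (hβ : 0 ≤ β)
    (h : α + β = m) (h' : α' + β' = m) (h1 : α' ≤ β') (h2 : β' ≤ α' + 1) :
    G6 n q d c α + G6 n q d (d - c) β ≤ B6 n c' α' + B6 n (d - c') β' := by
  have hpb := prod_bound hp.hmq hα hβ h h' h1 h2
  have hn1 : n = d + 1 + (α + β) := by rw [h]; exact hp.hn
  have hn2 : n = d + 1 + (α' + β') := by rw [h']; exact hp.hn
  have e1 := broom_value d c α β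
  have e2 := broom_value d c' α' β'
  rw [← hn1] at e1
  rw [← hn2] at e2
  unfold G6
  have hd3 := hp.d3
  have h5 : (d - 2) * (α * β + SS q α + SS q β) ≤ (d - 2) * (α' * β') :=
    mul_le_mul_of_nonneg_left hpb (by linarith)
  have e3 : 6 * α * (α - 1) + 6 * β * (β - 1) = 6 * (m ^ 2 - m) - 12 * (α * β) := by
    rw [← h]; ring
  have e4 : 6 * α' * (α' - 1) + 6 * β' * (β' - 1) = 6 * (m ^ 2 - m) - 12 * (α' * β') := by
    rw [← h']; ring
  rw [h] at e1
  rw [h'] at e2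
  nlinarith

end Pool.Agent.Wien566
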